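import Pool.Agent.Helper784LF.Perm

/-!
# Local finiteness, retractions, residual finiteness of the example
-/

set_option autoImplicit false

namespace Pool.Agent.Helper784LF

/-- truncation -/
noncomputable def tc (m : ℕ) : V →+ V := Finsupp.filterAddHom fun i => i < m

theorem tc_apply (m : ℕ) (u : V) (i : ℕ) : tc m u i = if i < m then u i else 0 :=
  Finsupp.filter_apply _ _ _

theorem tc_mul (m : ℕ) (u w : V) : tc m (u * w) = tc m u * tc m w := by
  ext i
  rw [Finsupp.mul_apply, tc_apply, tc_apply, tc_apply, Finsupp.mul_apply]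
  split_ifs <;> simp

/-- the support is contained in `[0, m)` -/
def Sm (m : ℕ) (u : V) : Prop := ∀ i, m ≤ i → u i = 0

theorem tc_eq {m : ℕ} {u : V} (h : Sm m u) : tc m u = u := by
  ext i
  rw [tc_apply]
  split_ifs with hi
  · rfl
  · exact (h i (not_lt.1 hi)).symm

theorem Sm_tc (m : ℕ) (u : V) : Sm m (tc m u) := by
  intro i hi
  rw [tc_apply, if_neg (not_lt.2 hi)]

theorem Sm.mono {m m' : ℕ} {u : V} (h : Sm m u) (hm : m ≤ m') : Sm m' u :=
  fun i hi => h i (hm.trans hi)

theorem exists_Sm (u : V) : ∃ m, Sm m u := by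
  refine ⟨u.support.sup id + 1, fun i hi => ?_⟩
  by_contra h
  have h1 : i ∈ u.support := Finsupp.mem_support_iff.2 h
  have h2 := Finset.le_sup (f := id) h1
  simp only [id] at h2
  omega

theorem Sm_zero (m : ℕ) : Sm m 0 := fun _ _ => rfl

theorem Sm_add {m : ℕ} {u w : V} (hu : Sm m u) (hw : Sm m w) : Sm m (u + w) := by
  intro i hi
  rw [Finsupp.add_apply, hu i hi, hw i hi, add_zero]

theorem Sm_neg {m : ℕ} {u : V} (hu : Sm m u) : Sm m (-u) := by
  intro i hi
  rw [Finsupp.neg_apply, hu i hi, neg_zero]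

theorem Sm_mul {m : ℕ} {u : V} (w : V) (hu : Sm m u) : Sm m (u * w) := by
  intro i hi
  rw [Finsupp.mul_apply, hu i hi, zero_mul]

theorem Sm_single {m : ℕ} (hm : 0 < m) (x : ZMod 2) : Sm m (Finsupp.single 0 x) := by
  intro i hi
  rw [Finsupp.single_apply, if_neg (by omega)]

theorem Sm_smul {m : ℕ} {u : V} (s : ZMod 2) (hu : Sm m u) : Sm m (s • u) := by
  intro i hi
  rw [Finsupp.smul_apply, hu i hi, smul_zero]

theorem Sm_fin (m : ℕ) : {u : V | Sm m u}.Finite := by
  have : Set.InjOn (fun (u : V) (i : Fin m) => u i) {u : V | Sm m u} := by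
    intro u hu w hw h
    ext i
    by_cases hi : i < m
    · exact congrFun h ⟨i, hi⟩
    · rw [hu i (not_lt.1 hi), hw i (not_lt.1 hi)]
  exact Set.Finite.of_finite_image (Set.toFinite _) this

/-- a common bound for the supports -/
theorem exists_bound {X : Type} (S : Finset X) (f : X → V) : ∃ m, ∀ s ∈ S, Sm m (f s) := by
  classical
  choose g hg using exists_Sm
  exact ⟨S.sup fun s => g (f s), fun s hs => (hg (f s)).mono
    (Finset.le_sup (f := fun s => g (f s)) hs)⟩

/-! ## Local finiteness of the extraspecial group -/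

/-- finite subgroups of the extraspecial group -/
def Bm (m : ℕ) : Subgroup BB where
  carrier := {x | Sm m x.u ∧ Sm m x.w}
  one_mem' := ⟨Sm_zero m, Sm_zero m⟩
  mul_mem' hx hy := ⟨Sm_add hx.1 hy.1, Sm_add hx.2 hy.2⟩
  inv_mem' hx := ⟨Sm_neg hx.1, Sm_neg hx.2⟩

theorem Bm_fin (m : ℕ) : Finite (Bm m) := by
  have h1 : Finite {u : V // Sm m u} := (Sm_fin m).to_subtype
  let f : Bm m → {u : V // Sm m u} × {u : V // Sm m u} × ZMod 2 :=
    fun x => (⟨x.1.u, x.2.1⟩, ⟨x.1.w, x.2.2⟩, x.1.c)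
  refine Finite.of_injective f fun x y h => ?_
  apply Subtype.ext
  simp only [f, Prod.mk.injEq, Subtype.mk.injEq] at h
  exact Hei.ext h.1 h.2.1 h.2.2

theorem locFin_BB : LocFin BB := by
  intro S
  obtain ⟨m, hm⟩ := exists_bound S fun x => x.u
  obtain ⟨m', hm'⟩ := exists_bound S fun x => x.w
  exact ⟨Bm (max m m'), Bm_fin _, fun s hs =>
    ⟨(hm s hs).mono (le_max_left _ _), (hm' s hs).mono (le_max_right _ _)⟩⟩

/-! ## Retractions of the sum of dihedral groups -/

/-- truncation on the sum of dihedral groups -/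
noncomputable def rt (m : ℕ) : HH →* HH := Hei.map (tc m) (tc m) (tc m) fun u w => tc_mul m u w

theorem rt_apply (m : ℕ) (x : HH) : rt m x = ⟨tc m x.u, tc m x.w, tc m x.c⟩ := rfl

theorem locRet_HH : LocRet HH := by
  intro S
  obtain ⟨m, hm⟩ := exists_bound S fun x => x.u
  obtain ⟨m', hm'⟩ := exists_bound S fun x => x.w
  obtain ⟨m'', hm''⟩ := exists_bound S fun x => x.c
  set M := max m (max m' m'') with hM
  refine ⟨rt M, ?_, fun s hs => ⟨?_, fun h => ?_⟩⟩
  · have h1 : Finite {u : V // Sm M u} := (Sm_fin M).to_subtype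
    let f : (rt M).range → {u : V // Sm M u} × {u : V // Sm M u} × {u : V // Sm M u} :=
      fun x => (⟨x.1.u, by obtain ⟨y, hy⟩ := x.2; rw [← hy]; exact Sm_tc M _⟩,
        ⟨x.1.w, by obtain ⟨y, hy⟩ := x.2; rw [← hy]; exact Sm_tc M _⟩,
        ⟨x.1.c, by obtain ⟨y, hy⟩ := x.2; rw [← hy]; exact Sm_tc M _⟩)
    refine Finite.of_injective f fun x y h => ?_
    apply Subtype.ext
    simp only [f, Prod.mk.injEq, Subtype.mk.injEq] at h
    exact Hei.ext h.1 h.2.1 h.2.2
  · rw [rt_apply, tc_eq ((hm s hs).mono (by omega)), tc_eq ((hm' s hs).mono (by omega)),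
      tc_eq ((hm'' s hs).mono (by omega))]
  · rw [rt_apply, rt_apply, tc_eq (Sm_tc M _), tc_eq (Sm_tc M _), tc_eq (Sm_tc M _)]

instance : Countable HH := by
  have : Function.Injective fun x : HH => (x.u, x.w, x.c) := by
    intro x y h
    simp only [Prod.mk.injEq] at h
    exact Hei.ext h.1 h.2.1 h.2.2
  exact this.countable

instance : Countable GG := by
  have : Function.Injective fun x : GG => (x.left, x.right.toAdd) := by
    intro x y h
    simp only [Prod.mk.injEq] at h
    exact SemidirectProduct.ext h.1 h.2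
  exact this.countable

/-! ## The main statements on the group -/

theorem θ_tt : θ tt = 1 := by
  rw [tt, θ, SemidirectProduct.lift_inr]; rfl

theorem θ_tz : θ (tt * SemidirectProduct.inl (zz 0)) ≠ 1 := by
  rw [map_mul, θ_tt, one_mul, θ, SemidirectProduct.lift_inl]
  intro h
  have h1 : tr (Finsupp.single 0 1) = 0 := congrArg Hei.c h
  rw [tr_single] at h1
  exact one_ne_zero h1

/-- the group is not stable in permutations -/
theorem not_pst (T : Finset GG) :
    ∃ (n : ℕ) (f : GG → Equiv.Perm (Fin n)), 0 < n ∧ (∀ g ∈ T, ∀ h ∈ T, f (g * h) = f g * f h) ∧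
      ∀ ρ : GG →* Equiv.Perm (Fin n), (n : ℕ) ≤
        (Finset.univ.filter (fun i : Fin n => f tt i ≠ ρ tt i)).card +
        (Finset.univ.filter (fun i : Fin n => f (tt * SemidirectProduct.inl (zz 0)) i ≠
          ρ (tt * SemidirectProduct.inl (zz 0)) i)).card :=
  not_pst_of θ locFin_BB _ _ θ_tt θ_tz (fun _ ρ => conj_fin ρ) T

theorem not_PSt_GG : ¬ PSt GG := by
  classical
  intro h
  obtain ⟨T, δ, hδ, h1⟩ := h {tt, tt * SemidirectProduct.inl (zz 0)} (1 / 2) (by norm_num)
  obtain ⟨n, f, hn, hf, hρ⟩ := not_pst T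
  obtain ⟨ρ, h2⟩ := h1 n f fun g hg h hh => by
    rw [hf g hg h hh]
    simpa using hδ
  have h3 := h2 tt (by simp)
  have h4 := h2 (tt * SemidirectProduct.inl (zz 0)) (by simp)
  have hn' : (0 : ℝ) < n := by exact_mod_cast hn
  rw [div_lt_iff₀ hn'] at h3 h4
  have h5 : (n : ℝ) ≤ ((Finset.univ.filter (fun i : Fin n => f tt i ≠ ρ tt i)).card : ℝ) +
        ((Finset.univ.filter (fun i : Fin n => f (tt * SemidirectProduct.inl (zz 0)) i ≠
          ρ (tt * SemidirectProduct.inl (zz 0)) i)).card : ℝ) := by exact_mod_cast hρ ρ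
  linarith

end Pool.Agent.Helper784LF
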