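import Mathlib

/-!
JOB LF-FS (owner helper784, MP_7c14f5_an and MP_e38963_al: stability of groups). Finite groups are stable in C*-algebras.
-/

set_option autoImplicit false

namespace Pool.Agent.Helper784LF

section polar

variable {B : Type} [CStarAlgebra B]

theorem real_ineq {x : ℝ} (hx : |x| ≤ 1 / 2) : |(Real.sqrt (1 + x))⁻¹ - 1| ≤ |x| := by
  have h1 : -(1 / 2) ≤ x := (abs_le.1 hx).1
  have hpos : 0 < 1 + x := by linarith
  set s := Real.sqrt (1 + x) with hs
  have hs0 : 0 < s := Real.sqrt_pos.2 hpos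
  have hs2 : s ^ 2 = 1 + x := Real.sq_sqrt hpos.le
  have hx' : x = (s - 1) * (s + 1) := by linarith [hs2, sq s]
  have e : s⁻¹ - 1 = -(s - 1) / s := by field_simp; ring
  rw [e, abs_div, abs_neg, abs_of_pos hs0, hx', abs_mul, abs_of_pos (by linarith : 0 < s + 1),
    div_le_iff₀ hs0, mul_assoc]
  refine le_mul_of_one_le_right (abs_nonneg _) ?_
  nlinarith

theorem polar (T : B) (η : ℝ) (hη : η ≤ 1 / 2) (hT : ‖T‖ ≤ 1) (h1 : ‖star T * T - 1‖ ≤ η)
    (h2 : ‖T * star T - 1‖ ≤ η) : ∃ V : unitary B, ‖(V : B) - T‖ ≤ η := by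
  rcases subsingleton_or_nontrivial B with hB | hB
  · refine ⟨1, ?_⟩
    rw [Subsingleton.elim ((1 : unitary B) : B) T, sub_self, norm_zero]
    exact le_trans (norm_nonneg _) h1
  set a : B := star T * T - 1 with ha
  have hsa : IsSelfAdjoint a := by
    rw [ha]
    exact (IsSelfAdjoint.star_mul_self T).sub (IsSelfAdjoint.one B)
  have hspec : ∀ x ∈ spectrum ℝ a, |x| ≤ η := fun x hx =>
    le_trans (spectrum.norm_le_norm_of_mem hx) h1
  have hpos : ∀ x ∈ spectrum ℝ a, 0 < 1 + x := fun x hx => by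
    have := (abs_le.1 (hspec x hx)).1
    linarith
  have hc : ContinuousOn (fun x : ℝ => (Real.sqrt (1 + x))⁻¹) (spectrum ℝ a) := by
    refine ContinuousOn.inv₀ (by fun_prop) fun x hx => ?_
    exact (Real.sqrt_pos.2 (hpos x hx)).ne'
  have hc1 : ContinuousOn (fun x : ℝ => 1 + x) (spectrum ℝ a) := by fun_prop
  set R : B := cfc (fun x : ℝ => (Real.sqrt (1 + x))⁻¹) a with hR
  have hRsa : IsSelfAdjoint R := cfc_predicate _ a
  have hS : star T * T = cfc (fun x : ℝ => 1 + x) a := by
    rw [cfc_const_add (1 : ℝ) (fun x => x) a (by fun_prop) hsa, cfc_id' ℝ a hsa]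
    simp [ha]
  have hRSR : R * (star T * T) * R = 1 := by
    have hc2 : ContinuousOn (fun x : ℝ => (Real.sqrt (1 + x))⁻¹ * (1 + x)) (spectrum ℝ a) :=
      hc.mul hc1
    rw [hS, hR, ← cfc_mul _ _ a hc hc1,
      ← cfc_mul (fun x : ℝ => (Real.sqrt (1 + x))⁻¹ * (1 + x)) _ a hc2 hc]
    rw [← cfc_one ℝ a hsa]
    refine cfc_congr fun x hx => ?_
    have h0 := hpos x hx
    have hs0 : 0 < Real.sqrt (1 + x) := Real.sqrt_pos.2 h0
    have hs2 : Real.sqrt (1 + x) * Real.sqrt (1 + x) = 1 + x := Real.mul_self_sqrt h0.le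
    simp only [Pi.one_apply]
    field_simp
    rw [sq, hs2]
  have hR1 : ‖R - 1‖ ≤ η := by
    have : R - 1 = cfc (fun x : ℝ => (Real.sqrt (1 + x))⁻¹ - 1) a := by
      rw [cfc_sub _ _ a hc (by fun_prop), cfc_const_one ℝ a hsa]
    rw [this]
    refine norm_cfc_le (le_trans (norm_nonneg _) h1) fun x hx => ?_
    exact le_trans (real_ineq (le_trans (hspec x hx) hη)) (hspec x hx)
  -- `T` has a right inverse
  have hunit : IsUnit (T * star T) := by
    have h3 : ‖1 - T * star T‖ < 1 := by
      rw [norm_sub_rev]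
      linarith
    have := isUnit_one_sub_of_norm_lt_one h3
    simpa using this
  obtain ⟨w, hw⟩ := hunit
  have hVl : star (T * R) * (T * R) = 1 := by
    rw [star_mul, hRsa.star_eq, ← hRSR]
    noncomm_ring
  have hVr : (T * R) * (star T * T * R * (star T * (↑w⁻¹ : B))) = 1 := by
    have e : (T * R) * (star T * T * R * (star T * (↑w⁻¹ : B))) =
        T * (R * (star T * T) * R) * star T * (↑w⁻¹ : B) := by noncomm_ring
    rw [e, hRSR, mul_one, ← hw, Units.mul_inv]
  have hVr' : (T * R) * star (T * R) = 1 := by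
    rw [left_inv_eq_right_inv hVl hVr]
    exact hVr
  refine ⟨⟨T * R, hVl, hVr'⟩, ?_⟩
  show ‖T * R - T‖ ≤ η
  have : T * R - T = T * (R - 1) := by noncomm_ring
  rw [this]
  calc ‖T * (R - 1)‖ ≤ ‖T‖ * ‖R - 1‖ := norm_mul_le _ _
    _ ≤ 1 * η := mul_le_mul hT hR1 (norm_nonneg _) zero_le_one
    _ = η := one_mul _

end polar

section av

variable {F : Type} [Group F] [Fintype F] {B : Type} [CStarAlgebra B]

/-- average -/
noncomputable def av (x : F → B) : B := ((Fintype.card F : ℂ))⁻¹ • ∑ h, x h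

theorem card_ne : (Fintype.card F : ℂ) ≠ 0 := by
  exact_mod_cast Fintype.card_ne_zero

theorem av_const (b : B) : av (fun _ : F => b) = b := by
  unfold av
  rw [Finset.sum_const, Finset.card_univ, ← Nat.cast_smul_eq_nsmul ℂ, smul_smul,
    inv_mul_cancel₀ card_ne, one_smul]

theorem av_sub (x y : F → B) : av (fun h => x h - y h) = av x - av y := by
  unfold av
  rw [Finset.sum_sub_distrib, smul_sub]

theorem av_mul_left (b : B) (x : F → B) : av (fun h => b * x h) = b * av x := by
  unfold av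
  rw [← Finset.mul_sum, mul_smul_comm]

theorem av_mul_right (b : B) (x : F → B) : av (fun h => x h * b) = av x * b := by
  unfold av
  rw [← Finset.sum_mul, smul_mul_assoc]

theorem av_star (x : F → B) : av (fun h => star (x h)) = star (av x) := by
  unfold av
  rw [star_smul, star_sum]
  simp

theorem av_norm (x : F → B) (c : ℝ) (hx : ∀ h, ‖x h‖ ≤ c) : ‖av x‖ ≤ c := by
  unfold av
  rw [norm_smul, norm_inv, Complex.norm_natCast]
  have hN : (0 : ℝ) < Fintype.card F := by exact_mod_cast Fintype.card_pos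
  rw [inv_mul_le_iff₀ hN]
  refine le_trans (norm_sum_le _ _) (le_trans (Finset.sum_le_sum fun h _ => hx h) ?_)
  simp

theorem av_perm (g : F) (x : F → B) : av (fun h => x (g * h)) = av x := by
  unfold av
  rw [Equiv.sum_comp (Equiv.mulLeft g) x |>.symm]
  rfl

theorem norm_coe_unitary (u : unitary B) : ‖(u : B)‖ ≤ 1 := by
  rcases subsingleton_or_nontrivial B with hB | hB
  · rw [Subsingleton.elim (u : B) 0, norm_zero]; exact zero_le_one
  · exact (CStarRing.norm_coe_unitary u).le

theorem step (d : ℝ) (hd : d ≤ 1 / 32) (f : F → unitary B)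
    (hf : ∀ g h : F, ‖((f (g * h) : unitary B) : B) - (f g : B) * (f h : B)‖ ≤ d) :
    ∃ V : F → unitary B,
      (∀ g h : F, ‖((V (g * h) : unitary B) : B) - (V g : B) * (V h : B)‖ ≤ d / 2) ∧
      ∀ g, ‖(V g : B) - (f g : B)‖ ≤ 2 * d := by
  have hd0 : 0 ≤ d := le_trans (norm_nonneg _) (hf 1 1)
  set A : F → F → unitary B := fun g h => f (g * h) * star (f h) with hA
  set T : F → B := fun g => av (fun h => (A g h : B)) with hT
  have hAf : ∀ g h, ‖(A g h : B) - (f g : B)‖ ≤ d := by
    intro g h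
    have e : (A g h : B) - (f g : B) =
        ((f (g * h) : B) - (f g : B) * (f h : B)) * ((star (f h) : unitary B) : B) := by
      have h1 : (f h : B) * ((star (f h) : unitary B) : B) = 1 := by
        rw [← Submonoid.coe_mul, Unitary.mul_star_self]; rfl
      rw [sub_mul, mul_assoc, h1, mul_one]
      rfl
    rw [e]
    calc _ ≤ ‖(f (g * h) : B) - (f g : B) * (f h : B)‖ * ‖((star (f h) : unitary B) : B)‖ :=
          norm_mul_le _ _
      _ ≤ d * 1 := mul_le_mul (hf g h) (norm_coe_unitary _) (norm_nonneg _) hd0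
      _ = d := mul_one d
  have hTf : ∀ g, ‖T g - (f g : B)‖ ≤ d := by
    intro g
    have e : T g - (f g : B) = av (fun h => (A g h : B) - (f g : B)) := by
      rw [av_sub, av_const]
    rw [e]
    exact av_norm _ _ (hAf g)
  have hT1 : ∀ g, ‖T g‖ ≤ 1 := fun g => av_norm _ _ fun h => norm_coe_unitary _
  have hAT : ∀ g h, ‖(A g h : B) - T g‖ ≤ 2 * d := by
    intro g h
    have e : (A g h : B) - T g = ((A g h : B) - (f g : B)) - (T g - (f g : B)) := by abel
    rw [e]
    refine le_trans (norm_sub_le _ _) ?_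
    linarith [hAf g h, hTf g]
  have hmul : ∀ g g' h, (A (g * g') h : B) = (A g (g' * h) : B) * (A g' h : B) := by
    intro g g' h
    rw [← Submonoid.coe_mul]
    refine congrArg _ ?_
    show f (g * g' * h) * star (f h) =
      f (g * (g' * h)) * star (f (g' * h)) * (f (g' * h) * star (f h))
    rw [mul_assoc (f (g * (g' * h))), ← mul_assoc (star (f (g' * h))), Unitary.star_mul_self,
      one_mul, mul_assoc]
  have hperm : ∀ g g', av (fun h => (A g (g' * h) : B)) = T g := fun g g' =>
    av_perm g' (fun h => (A g h : B))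
  have hE : ∀ g g', ‖T (g * g') - T g * T g'‖ ≤ 4 * d ^ 2 := by
    intro g g'
    have e : T (g * g') - T g * T g' =
        av (fun h => ((A g (g' * h) : B) - T g) * ((A g' h : B) - T g')) := by
      have e1 : (fun h => ((A g (g' * h) : B) - T g) * ((A g' h : B) - T g')) =
          fun h => ((A (g * g') h : B) - (A g (g' * h) : B) * T g') -
            (T g * (A g' h : B) - T g * T g') := by
        funext h
        rw [hmul]
        noncomm_ring
      rw [e1, av_sub, av_sub, av_sub, av_mul_right, av_mul_left, av_const, hperm]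
      show _ = T (g * g') - T g * T g' - (T g * T g' - T g * T g')
      rw [sub_self, sub_zero]
    rw [e]
    refine av_norm _ _ fun h => ?_
    calc _ ≤ ‖(A g (g' * h) : B) - T g‖ * ‖(A g' h : B) - T g'‖ := norm_mul_le _ _
      _ ≤ (2 * d) * (2 * d) := mul_le_mul (hAT _ _) (hAT _ _) (norm_nonneg _) (by linarith)
      _ = 4 * d ^ 2 := by ring
  have hU1 : ∀ g, ‖star (T g) * T g - 1‖ ≤ 4 * d ^ 2 := by
    intro g
    have e : star (T g) * T g - 1 =
        - av (fun h => star ((A g h : B) - T g) * ((A g h : B) - T g)) := by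
      have e1 : (fun h => star ((A g h : B) - T g) * ((A g h : B) - T g)) =
          fun h => (1 - star (A g h : B) * T g) - (star (T g) * (A g h : B) - star (T g) * T g) := by
        funext h
        have h1 : star (A g h : B) * (A g h : B) = 1 := (A g h).2.1
        rw [← h1, star_sub]
        noncomm_ring
      rw [e1, av_sub, av_sub, av_sub, av_mul_right, av_mul_left, av_const, av_const, av_star]
      show _ = -(1 - star (T g) * T g - (star (T g) * T g - star (T g) * T g))
      rw [sub_self, sub_zero, neg_sub]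
    rw [e, norm_neg]
    refine av_norm _ _ fun h => ?_
    calc _ ≤ ‖star ((A g h : B) - T g)‖ * ‖(A g h : B) - T g‖ := norm_mul_le _ _
      _ ≤ (2 * d) * (2 * d) := mul_le_mul (by rw [norm_star]; exact hAT _ _) (hAT _ _)
          (norm_nonneg _) (by linarith)
      _ = 4 * d ^ 2 := by ring
  have hU2 : ∀ g, ‖T g * star (T g) - 1‖ ≤ 4 * d ^ 2 := by
    intro g
    have e : T g * star (T g) - 1 =
        - av (fun h => ((A g h : B) - T g) * star ((A g h : B) - T g)) := by
      have e1 : (fun h => ((A g h : B) - T g) * star ((A g h : B) - T g)) =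
          fun h => (1 - (A g h : B) * star (T g)) - (T g * star (A g h : B) - T g * star (T g)) := by
        funext h
        have h1 : (A g h : B) * star (A g h : B) = 1 := (A g h).2.2
        rw [← h1, star_sub]
        noncomm_ring
      rw [e1, av_sub, av_sub, av_sub, av_mul_right, av_mul_left, av_const, av_const, av_star]
      show _ = -(1 - T g * star (T g) - (T g * star (T g) - T g * star (T g)))
      rw [sub_self, sub_zero, neg_sub]
    rw [e, norm_neg]
    refine av_norm _ _ fun h => ?_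
    calc _ ≤ ‖(A g h : B) - T g‖ * ‖star ((A g h : B) - T g)‖ := norm_mul_le _ _
      _ ≤ (2 * d) * (2 * d) := mul_le_mul (hAT _ _) (by rw [norm_star]; exact hAT _ _)
          (norm_nonneg _) (by linarith)
      _ = 4 * d ^ 2 := by ring
  have hd2 : 4 * d ^ 2 ≤ 1 / 2 := by nlinarith
  choose V hV using fun g => polar (T g) (4 * d ^ 2) hd2 (hT1 g) (hU1 g) (hU2 g)
  refine ⟨V, fun g g' => ?_, fun g => ?_⟩
  · have e : (V (g * g') : B) - (V g : B) * (V g' : B) = ((V (g * g') : B) - T (g * g')) +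
        (T (g * g') - T g * T g') - ((V g : B) - T g) * T g' - (V g : B) * ((V g' : B) - T g') := by
      noncomm_ring
    rw [e]
    have n1 := hV (g * g')
    have n2 := hE g g'
    have n3 : ‖((V g : B) - T g) * T g'‖ ≤ 4 * d ^ 2 := by
      calc _ ≤ ‖(V g : B) - T g‖ * ‖T g'‖ := norm_mul_le _ _
        _ ≤ (4 * d ^ 2) * 1 := mul_le_mul (hV g) (hT1 g') (norm_nonneg _) (by positivity)
        _ = 4 * d ^ 2 := mul_one _
    have n4 : ‖(V g : B) * ((V g' : B) - T g')‖ ≤ 4 * d ^ 2 := by
      calc _ ≤ ‖(V g : B)‖ * ‖(V g' : B) - T g'‖ := norm_mul_le _ _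
        _ ≤ 1 * (4 * d ^ 2) := mul_le_mul (norm_coe_unitary _) (hV g') (norm_nonneg _) zero_le_one
        _ = 4 * d ^ 2 := one_mul _
    have m1 := norm_sub_le (((V (g * g') : B) - T (g * g')) +
        (T (g * g') - T g * T g') - ((V g : B) - T g) * T g') ((V g : B) * ((V g' : B) - T g'))
    have m2 := norm_sub_le (((V (g * g') : B) - T (g * g')) +
        (T (g * g') - T g * T g')) (((V g : B) - T g) * T g')
    have m3 := norm_add_le ((V (g * g') : B) - T (g * g')) (T (g * g') - T g * T g')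
    have : 16 * d ^ 2 ≤ d / 2 := by nlinarith
    linarith
  · have e : (V g : B) - (f g : B) = ((V g : B) - T g) + (T g - (f g : B)) := by abel
    rw [e]
    have := norm_add_le ((V g : B) - T g) (T g - (f g : B))
    have h1 := hV g
    have h2 := hTf g
    have : 4 * d ^ 2 ≤ d := by nlinarith
    linarith

end av

/-- TARGET -/
theorem fin_stable (F : Type) [Group F] [Finite F] (ε : ℝ) (hε : 0 < ε) :
    ∃ δ : ℝ, 0 < δ ∧ ∀ (B : Type) [CStarAlgebra B] (f : F → unitary B),
      (∀ g h : F, ‖((f (g * h) : unitary B) : B) - (f g : B) * (f h : B)‖ ≤ δ) →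
      ∃ ρ : F →* unitary B, ∀ g : F, ‖((f g : unitary B) : B) - (ρ g : B)‖ ≤ ε := by
  haveI : Fintype F := Fintype.ofFinite F
  refine ⟨min (ε / 4) (1 / 32), lt_min (by linarith) (by norm_num), ?_⟩
  intro B _ f hf
  set δ := min (ε / 4) (1 / 32) with hδ
  have hδ1 : δ ≤ 1 / 32 := min_le_right _ _
  have hδ2 : δ ≤ ε / 4 := min_le_left _ _
  have hδ0 : 0 ≤ δ := le_trans (norm_nonneg _) (hf 1 1)
  -- the iteration
  let P : ℕ → Type := fun n => {f : F → unitary B //
    ∀ g h : F, ‖((f (g * h) : unitary B) : B) - (f g : B) * (f h : B)‖ ≤ δ / 2 ^ n}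
  have hsmall : ∀ n : ℕ, δ / 2 ^ n ≤ 1 / 32 := fun n =>
    le_trans (div_le_self hδ0 (one_le_pow₀ one_le_two)) hδ1
  have hex : ∀ n (u : P n), ∃ v : P (n + 1),
      ∀ g, ‖(v.1 g : B) - (u.1 g : B)‖ ≤ 2 * (δ / 2 ^ n) := by
    intro n u
    obtain ⟨V, h1, h2⟩ := step (δ / 2 ^ n) (hsmall n) u.1 u.2
    refine ⟨⟨V, fun g h => le_trans (h1 g h) (le_of_eq ?_)⟩, h2⟩
    rw [pow_succ]
    field_simp
  choose nxt hnxt using hex
  let sq : ∀ n, P n := fun n => Nat.rec ⟨f, fun g h => by simpa using hf g h⟩ (fun n u => nxt n u) n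
  have hsq : ∀ n g, ‖((sq (n + 1)).1 g : B) - ((sq n).1 g : B)‖ ≤ 2 * (δ / 2 ^ n) := fun n g =>
    hnxt n (sq n) g
  have hdist : ∀ g n, dist ((sq n).1 g : B) ((sq (n + 1)).1 g : B) ≤ (4 * δ) / 2 / 2 ^ n := by
    intro g n
    rw [dist_comm, dist_eq_norm]
    refine le_trans (hsq n g) (le_of_eq ?_)
    ring
  have hcau : ∀ g, CauchySeq (fun n => ((sq n).1 g : B)) := fun g =>
    cauchySeq_of_le_geometric_two (hdist g)
  choose L hL using fun g => cauchySeq_tendsto_of_complete (hcau g)
  have hclose : ∀ g, ‖(f g : B) - L g‖ ≤ ε := by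
    intro g
    have := dist_le_of_le_geometric_two_of_tendsto₀ (hdist g) (hL g)
    rw [dist_eq_norm] at this
    refine le_trans this ?_
    linarith
  have hu1 : ∀ g, star (L g) * L g = 1 := by
    intro g
    have h1 : Filter.Tendsto (fun n => star ((sq n).1 g : B) * ((sq n).1 g : B)) Filter.atTop
        (nhds (star (L g) * L g)) := ((hL g).star).mul (hL g)
    have h2 : (fun n => star ((sq n).1 g : B) * ((sq n).1 g : B)) = fun _ => (1 : B) := by
      funext n
      exact ((sq n).1 g).2.1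
    rw [h2] at h1
    exact tendsto_nhds_unique h1 tendsto_const_nhds |>.symm ▸ rfl
  have hu2 : ∀ g, L g * star (L g) = 1 := by
    intro g
    have h1 : Filter.Tendsto (fun n => ((sq n).1 g : B) * star ((sq n).1 g : B)) Filter.atTop
        (nhds (L g * star (L g))) := (hL g).mul ((hL g).star)
    have h2 : (fun n => ((sq n).1 g : B) * star ((sq n).1 g : B)) = fun _ => (1 : B) := by
      funext n
      exact ((sq n).1 g).2.2
    rw [h2] at h1
    exact tendsto_nhds_unique h1 tendsto_const_nhds |>.symm ▸ rfl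
  have hmul : ∀ g h, L (g * h) = L g * L h := by
    intro g h
    have h1 : Filter.Tendsto (fun n => ((sq n).1 (g * h) : B) - ((sq n).1 g : B) * ((sq n).1 h : B))
        Filter.atTop (nhds (L (g * h) - L g * L h)) := (hL (g * h)).sub ((hL g).mul (hL h))
    have h2 : Filter.Tendsto (fun n => ((sq n).1 (g * h) : B) -
        ((sq n).1 g : B) * ((sq n).1 h : B)) Filter.atTop (nhds 0) := by
      refine squeeze_zero_norm (fun n => (sq n).2 g h) ?_
      have h3 : Filter.Tendsto (fun n : ℕ => δ * (1 / 2) ^ n) Filter.atTop (nhds (δ * 0)) :=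
        (tendsto_pow_atTop_nhds_zero_of_lt_one (by norm_num) (by norm_num)).const_mul δ
      rw [mul_zero] at h3
      refine h3.congr fun n => ?_
      rw [one_div, inv_pow, div_eq_mul_inv]
    exact sub_eq_zero.1 (tendsto_nhds_unique h1 h2)
  refine ⟨MonoidHom.mk' (fun g => ⟨L g, hu1 g, hu2 g⟩) fun g h => Subtype.ext (hmul g h),
    fun g => hclose g⟩

end Pool.Agent.Helper784LF
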