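import Pool.Agent.Helper784LF.FS

/-!
JOB LF-FS2 (owner helper784, MP_7c14f5_an). Finite groups are weakly semiprojective (non-unital form).
-/

set_option autoImplicit false

namespace Pool.Agent.Helper784LF

/-- Norm bound for approximately unitary elements. -/
theorem norm_le_of_defect {A : Type} [CStarAlgebra A] (T T' : A) (η : ℝ) (hη0 : 0 ≤ η)
    (hη : η ≤ 1 / 18) (h1 : ‖T * T' - 1‖ ≤ η) (h2 : ‖T' - star T‖ ≤ η) : ‖T‖ ≤ 1 + 3 * η := by
  rcases subsingleton_or_nontrivial A with hB | hB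
  · rw [Subsingleton.elim T 0, norm_zero]; linarith
  have e : T * star T = (T * T' - 1) + 1 - T * (T' - star T) := by noncomm_ring
  have h3 : ‖T‖ * ‖T‖ ≤ η + 1 + ‖T‖ * η := by
    rw [← CStarRing.norm_self_mul_star, e]
    refine le_trans (norm_sub_le _ _) ?_
    refine add_le_add (le_trans (norm_add_le _ _) (add_le_add h1 ?_)) ?_
    · rw [norm_one]
    · exact le_trans (norm_mul_le _ _) (mul_le_mul_of_nonneg_left h2 (norm_nonneg _))
  have h0 := norm_nonneg T
  have h4 : ‖T‖ ≤ 2 := by nlinarith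
  nlinarith

/-- The approximate unitary `T` is close to a unitary. -/
theorem polar' {A : Type} [CStarAlgebra A] (T T' : A) (η : ℝ) (hη0 : 0 ≤ η)
    (hη : η ≤ 1 / 18) (h1 : ‖T * T' - 1‖ ≤ η) (h1' : ‖T' * T - 1‖ ≤ η)
    (h2 : ‖T' - star T‖ ≤ η) : ∃ V : unitary A, ‖(V : A) - T‖ ≤ 12 * η := by
  have hn := norm_le_of_defect T T' η hη0 hη h1 h2
  have h0 := norm_nonneg T
  have hn2 : ‖T‖ ≤ 2 := by linarith
  have hs1 : ‖star T * T - 1‖ ≤ 3 * η := by
    have e : star T * T - 1 = (T' * T - 1) - (T' - star T) * T := by noncomm_ring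
    rw [e]
    refine le_trans (norm_sub_le _ _) ?_
    have := le_trans (norm_mul_le (T' - star T) T)
      (mul_le_mul h2 hn2 h0 hη0)
    linarith
  have hs2 : ‖T * star T - 1‖ ≤ 3 * η := by
    have e : T * star T - 1 = (T * T' - 1) - T * (T' - star T) := by noncomm_ring
    rw [e]
    refine le_trans (norm_sub_le _ _) ?_
    have := le_trans (norm_mul_le T (T' - star T))
      (mul_le_mul hn2 h2 (norm_nonneg _) (by norm_num))
    linarith
  set c : ℝ := (1 + 3 * η)⁻¹ with hc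
  have hpos : 0 < 1 + 3 * η := by linarith
  have hc0 : 0 < c := inv_pos.2 hpos
  have hc1 : c ≤ 1 := inv_le_one_of_one_le₀ (by linarith)
  have hcm : c * (1 + 3 * η) = 1 := inv_mul_cancel₀ hpos.ne'
  have hc2 : 1 - c ≤ 3 * η := by nlinarith
  have key : ∀ X : A, ‖X - 1‖ ≤ 3 * η → ‖((c * c : ℝ) : ℂ) • X - 1‖ ≤ 9 * η := by
    intro X hX
    have e : ((c * c : ℝ) : ℂ) • X - 1 =
        ((c * c : ℝ) : ℂ) • (X - 1) + ((c * c - 1 : ℝ) : ℂ) • (1 : A) := by
      push_cast
      rw [smul_sub, sub_smul, one_smul]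
      abel
    rw [e]
    refine le_trans (norm_add_le _ _) ?_
    rw [norm_smul, norm_smul, Complex.norm_real, Complex.norm_real, Real.norm_eq_abs,
      Real.norm_eq_abs, abs_of_nonneg (by positivity : 0 ≤ c * c),
      abs_of_nonpos (by nlinarith : c * c - 1 ≤ 0)]
    have h1A : ‖(1 : A)‖ ≤ 1 := by
      rcases subsingleton_or_nontrivial A with hB | hB
      · rw [Subsingleton.elim (1 : A) 0, norm_zero]; exact zero_le_one
      · rw [norm_one]
    have m1 : c * c * ‖X - 1‖ ≤ 1 * (3 * η) :=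
      mul_le_mul (by nlinarith) hX (norm_nonneg _) zero_le_one
    have m2 : -(c * c - 1) * ‖(1 : A)‖ ≤ (6 * η) * 1 :=
      mul_le_mul (by nlinarith) h1A (norm_nonneg _) (by linarith)
    linarith
  have hT1 : ‖(c : ℂ) • T‖ ≤ 1 := by
    rw [norm_smul, Complex.norm_real, Real.norm_eq_abs, abs_of_pos hc0, ← hcm]
    exact mul_le_mul_of_nonneg_left hn hc0.le
  obtain ⟨V, hV⟩ := polar ((c : ℂ) • T) (9 * η) (by linarith) hT1
    (by
      have e : star ((c : ℂ) • T) * ((c : ℂ) • T) = ((c * c : ℝ) : ℂ) • (star T * T) := by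
        rw [star_smul, smul_mul_smul_comm]
        simp
      rw [e]
      exact key _ hs1)
    (by
      have e : ((c : ℂ) • T) * star ((c : ℂ) • T) = ((c * c : ℝ) : ℂ) • (T * star T) := by
        rw [star_smul, smul_mul_smul_comm]
        simp
      rw [e]
      exact key _ hs2)
  refine ⟨V, ?_⟩
  have e : (V : A) - T = ((V : A) - (c : ℂ) • T) - ((1 - c : ℝ) : ℂ) • T := by
    push_cast
    rw [sub_smul, one_smul]
    abel
  rw [e]
  refine le_trans (norm_sub_le _ _) ?_
  have : ‖((1 - c : ℝ) : ℂ) • T‖ ≤ 3 * η := by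
    rw [norm_smul, Complex.norm_real, Real.norm_eq_abs, abs_of_nonneg (by linarith)]
    have m : (1 - c) * ‖T‖ ≤ (1 - c) * (1 + 3 * η) := mul_le_mul_of_nonneg_left hn (by linarith)
    nlinarith
  linarith

/-- Unital version of the stability statement. -/
theorem fin_unital_stable (F : Type) [Group F] [Finite F] (ε : ℝ) (hε : 0 < ε) :
    ∃ δ : ℝ, 0 < δ ∧ ∀ (A : Type) [CStarAlgebra A] (T : F → A),
      T 1 = 1 → (∀ g h : F, ‖T (g * h) - T g * T h‖ ≤ δ) → (∀ g : F, ‖T g⁻¹ - star (T g)‖ ≤ δ) →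
      ∃ ρ : F →* unitary A, ∀ g : F, ‖T g - (ρ g : A)‖ ≤ ε := by
  obtain ⟨δ', hδ', H⟩ := fin_stable F (ε / 2) (by linarith)
  refine ⟨min (ε / 24) (min (1 / 18) (δ' / 49)),
    lt_min (by linarith) (lt_min (by norm_num) (by linarith)), ?_⟩
  intro A _ T hT1 hTm hTs
  set η := min (ε / 24) (min (1 / 18) (δ' / 49)) with hη
  have hη1 : η ≤ ε / 24 := min_le_left _ _
  have hη2 : η ≤ 1 / 18 := le_trans (min_le_right _ _) (min_le_left _ _)
  have hη3 : η ≤ δ' / 49 := le_trans (min_le_right _ _) (min_le_right _ _)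
  have hη0 : 0 ≤ η := le_trans (norm_nonneg _) (hTs 1)
  have hd1 : ∀ g, ‖T g * T g⁻¹ - 1‖ ≤ η := by
    intro g
    have := hTm g g⁻¹
    rwa [mul_inv_cancel, hT1, norm_sub_rev] at this
  have hd2 : ∀ g, ‖T g⁻¹ * T g - 1‖ ≤ η := by
    intro g
    have := hTm g⁻¹ g
    rwa [inv_mul_cancel, hT1, norm_sub_rev] at this
  have hn : ∀ g, ‖T g‖ ≤ 2 := fun g =>
    le_trans (norm_le_of_defect (T g) (T g⁻¹) η hη0 hη2 (hd1 g) (hTs g)) (by linarith)
  choose V hV using fun g => polar' (T g) (T g⁻¹) η hη0 hη2 (hd1 g) (hd2 g) (hTs g)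
  obtain ⟨ρ, hρ⟩ := H A V (by
    intro g h
    have e : (V (g * h) : A) - (V g : A) * (V h : A) = ((V (g * h) : A) - T (g * h)) +
        (T (g * h) - T g * T h) - ((V g : A) - T g) * T h - (V g : A) * ((V h : A) - T h) := by
      noncomm_ring
    rw [e]
    have n1 := hV (g * h)
    have n2 := hTm g h
    have n3 : ‖((V g : A) - T g) * T h‖ ≤ 12 * η * 2 :=
      le_trans (norm_mul_le _ _) (mul_le_mul (hV g) (hn h) (norm_nonneg _) (by linarith))
    have n4 : ‖(V g : A) * ((V h : A) - T h)‖ ≤ 1 * (12 * η) :=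
      le_trans (norm_mul_le _ _) (mul_le_mul (norm_coe_unitary _) (hV h) (norm_nonneg _)
        zero_le_one)
    have m1 := norm_sub_le (((V (g * h) : A) - T (g * h)) +
        (T (g * h) - T g * T h) - ((V g : A) - T g) * T h) ((V g : A) * ((V h : A) - T h))
    have m2 := norm_sub_le (((V (g * h) : A) - T (g * h)) +
        (T (g * h) - T g * T h)) (((V g : A) - T g) * T h)
    have m3 := norm_add_le ((V (g * h) : A) - T (g * h)) (T (g * h) - T g * T h)
    linarith)
  refine ⟨ρ, fun g => ?_⟩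
  have e : T g - (ρ g : A) = ((V g : A) - (ρ g : A)) - ((V g : A) - T g) := by abel
  rw [e]
  have := norm_sub_le ((V g : A) - (ρ g : A)) ((V g : A) - T g)
  have h1 := hV g
  have h2 := hρ g
  linarith

theorem norm_fst_le' {B : Type} [NonUnitalCStarAlgebra B] (x : Unitization ℂ B) :
    ‖x.fst‖ ≤ ‖x‖ := by
  rw [Unitization.norm_eq_sup]
  exact le_sup_left

/-- TARGET -/
theorem fin_star_stable (F : Type) [Group F] [Finite F] (ε : ℝ) (hε : 0 < ε) :
    ∃ δ : ℝ, 0 < δ ∧ ∀ (B : Type) [NonUnitalCStarAlgebra B] (f : F → B),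
      (∀ g h : F, ‖f (g * h) - f g * f h‖ ≤ δ) → (∀ g : F, ‖f g⁻¹ - star (f g)‖ ≤ δ) →
      ∃ ρ : F → B, (∀ g h : F, ρ (g * h) = ρ g * ρ h) ∧ (∀ g : F, ρ g⁻¹ = star (ρ g)) ∧
        ∀ g : F, ‖f g - ρ g‖ ≤ ε := by
  obtain ⟨δ', hδ', H⟩ := fin_unital_stable (F × ℤˣ) (min ε (1 / 2)) (lt_min hε (by norm_num))
  refine ⟨δ' / 4, by linarith, ?_⟩
  intro B _ f hm hs
  set δ := δ' / 4 with hδ
  have hδ0 : 0 ≤ δ := by linarith
  set a : F → Unitization ℂ B := fun g => (Unitization.inr (f g) : Unitization ℂ B) with ha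
  have ham : ∀ g h, ‖a (g * h) - a g * a h‖ ≤ δ := by
    intro g h
    have e : a (g * h) - a g * a h = (Unitization.inr (f (g * h) - f g * f h) : Unitization ℂ B) := by
      rw [Unitization.inr_sub, Unitization.inr_mul]
    rw [e, Unitization.norm_inr]
    exact hm g h
  have has : ∀ g, ‖a g⁻¹ - star (a g)‖ ≤ δ := by
    intro g
    have e : a g⁻¹ - star (a g) = (Unitization.inr (f g⁻¹ - star (f g)) : Unitization ℂ B) := by
      rw [Unitization.inr_sub, Unitization.inr_star]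
    rw [e, Unitization.norm_inr]
    exact hs g
  set T : F × ℤˣ → Unitization ℂ B := fun x => a x.1 + (((x.2 : ℤ) : ℂ)) • (1 - a 1) with hT
  have hsg : ∀ σ : ℤˣ, ‖((σ : ℤ) : ℂ)‖ = 1 := by
    intro σ
    rcases Int.units_eq_one_or σ with h | h <;> simp [h]
  have hns : ∀ (σ : ℤˣ) (X : Unitization ℂ B), ‖X‖ ≤ δ → ‖((σ : ℤ) : ℂ) • X‖ ≤ δ := by
    intro σ X hX
    rw [norm_smul, hsg, one_mul]
    exact hX
  obtain ⟨ρ', hρ'⟩ := H (Unitization ℂ B) T
    (by
      show a 1 + (((1 : ℤˣ) : ℤ) : ℂ) • (1 - a 1) = 1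
      simp)
    (by
      rintro ⟨g, σ⟩ ⟨h, τ⟩
      have e : T ((g, σ) * (h, τ)) - T (g, σ) * T (h, τ) =
          (a (g * h) - a g * a h) - ((τ : ℤ) : ℂ) • (a (g * 1) - a g * a 1)
            - ((σ : ℤ) : ℂ) • (a (1 * h) - a 1 * a h)
            + ((σ : ℤ) : ℂ) • ((τ : ℤ) : ℂ) • (a (1 * 1) - a 1 * a 1) := by
        simp only [hT, Prod.mk_mul_mk, Units.val_mul, Int.cast_mul, mul_one, one_mul]
        rcases Int.units_eq_one_or σ with h1 | h1 <;> rcases Int.units_eq_one_or τ with h2 | h2 <;>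
          simp only [h1, h2, Units.val_one, Units.val_neg, Int.cast_one, Int.cast_neg, one_smul,
            neg_smul, mul_one, neg_neg, mul_neg] <;> noncomm_ring
      rw [e]
      have n1 := ham g h
      have n2 := hns τ _ (ham g 1)
      have n3 := hns σ _ (ham 1 h)
      have n4 := hns σ _ (hns τ _ (ham 1 1))
      refine le_trans (norm_add_le _ _) ?_
      refine le_trans (add_le_add (le_trans (norm_sub_le _ _)
        (add_le_add (norm_sub_le _ _) le_rfl)) le_rfl) ?_
      linarith)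
    (by
      rintro ⟨g, σ⟩
      have e : T (g, σ)⁻¹ - star (T (g, σ)) =
          (a g⁻¹ - star (a g)) - ((σ : ℤ) : ℂ) • (a 1⁻¹ - star (a 1)) := by
        simp only [hT, Prod.inv_mk, Int.units_inv_eq_self, inv_one, star_add, star_smul, star_sub,
          star_one]
        rw [show star ((σ : ℤ) : ℂ) = ((σ : ℤ) : ℂ) by simp]
        simp only [smul_sub]
        abel
      rw [e]
      have n1 := has g
      have n2 := hns σ _ (has 1)
      refine le_trans (norm_sub_le _ _) ?_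
      linarith)
  set r : F → Unitization ℂ B := fun g => (1 / 2 : ℂ) •
    ((ρ' (g, 1) : Unitization ℂ B) + (ρ' (g, -1) : Unitization ℂ B)) with hr
  have hclose : ∀ g, ‖a g - r g‖ ≤ min ε (1 / 2) := by
    intro g
    have e : a g - r g = (1 / 2 : ℂ) • ((T (g, 1) - (ρ' (g, 1) : Unitization ℂ B)) +
        (T (g, -1) - (ρ' (g, -1) : Unitization ℂ B))) := by
      simp only [hT, hr, Units.val_one, Units.val_neg, Int.cast_one, Int.cast_neg]
      module
    rw [e, norm_smul]
    have h1 := hρ' (g, 1)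
    have h2 := hρ' (g, -1)
    have h3 := norm_add_le (T (g, 1) - (ρ' (g, 1) : Unitization ℂ B))
      (T (g, -1) - (ρ' (g, -1) : Unitization ℂ B))
    have : ‖(1 / 2 : ℂ)‖ = 1 / 2 := by norm_num
    rw [this]
    linarith
  have hrm : ∀ g h, r (g * h) = r g * r h := by
    intro g h
    simp only [hr]
    rw [smul_mul_smul_comm, add_mul, mul_add, mul_add]
    simp only [← Submonoid.coe_mul, ← map_mul, Prod.mk_mul_mk, mul_one, mul_neg, neg_neg]
    module
  have hrs : ∀ g, r g⁻¹ = star (r g) := by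
    intro g
    simp only [hr]
    have h1 : ∀ x : F × ℤˣ, star (ρ' x : Unitization ℂ B) = (ρ' x⁻¹ : Unitization ℂ B) := by
      intro x
      rw [map_inv]
      rfl
    rw [star_smul, star_add, h1, h1, Prod.inv_mk, Prod.inv_mk, Int.units_inv_eq_self,
      Int.units_inv_eq_self]
    congr 1
    simp
  -- the scalar part vanishes
  have hfa : ∀ g, (a g).fst = 0 := fun g => Unitization.fst_inr _ _
  have hlt : ∀ g, ‖(r g).fst‖ ≤ 1 / 2 := by
    intro g
    have h1 : (r g).fst = -((a g - r g).fst) := by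
      have h2 : (a g - r g).fst = (a g).fst - (r g).fst := by
        rw [sub_eq_add_neg, Unitization.fst_add, Unitization.fst_neg, sub_eq_add_neg]
      rw [h2, hfa, zero_sub, neg_neg]
    rw [h1, norm_neg]
    exact le_trans (norm_fst_le' _) (le_trans (hclose g) (min_le_right _ _))
  have h10 : (r 1).fst = 0 := by
    have h1 : (r 1).fst = (r 1).fst * (r 1).fst := by
      conv_lhs => rw [← mul_one (1 : F), hrm, Unitization.fst_mul]
    by_contra hne
    have h2 : (r 1).fst = 1 := by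
      have : (r 1).fst * ((r 1).fst - 1) = 0 := by rw [mul_sub, mul_one, ← h1, sub_self]
      rcases mul_eq_zero.1 this with h | h
      · exact absurd h hne
      · exact sub_eq_zero.1 h
    have h3 := hlt 1
    rw [h2, norm_one] at h3
    linarith
  have hg0 : ∀ g, (r g).fst = 0 := by
    intro g
    rw [← mul_one g, hrm, Unitization.fst_mul, h10, mul_zero]
  have hinr : ∀ g, r g = (Unitization.inr (r g).snd : Unitization ℂ B) := by
    intro g
    refine Unitization.ext ?_ ?_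
    · rw [hg0, Unitization.fst_inr]
    · rw [Unitization.snd_inr]
  have inj : Function.Injective (Unitization.inr : B → Unitization ℂ B) :=
    Unitization.inr_injective
  refine ⟨fun g => (r g).snd, fun g h => inj ?_, fun g => inj ?_, fun g => ?_⟩
  · rw [Unitization.inr_mul, ← hinr, ← hinr, ← hinr]
    exact hrm g h
  · rw [Unitization.inr_star, ← hinr, ← hinr]
    exact hrs g
  · rw [← Unitization.norm_inr (𝕜 := ℂ) (f g - (r g).snd), Unitization.inr_sub, ← hinr]
    exact le_trans (hclose g) (min_le_left _ _)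

end Pool.Agent.Helper784LF
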