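import Mathlib

/-!
# Locally finite groups of class two which are not stable

`Hei β` : the Heisenberg type group of a biadditive map `β : U × W → C`.
`Gr β l` : its semidirect product with a group of order two acting by `(u, w, c) ↦ (u, w, c + l u)`.

The main example: `U = W = C = ℕ →₀ ZMod 2`, `β` the pointwise product, `l u = u + (∑ u) e_0`;
here `Hei β` is the direct sum of countably many dihedral groups of order eight.
-/

set_option autoImplicit false

namespace Pool.Agent.Helper784LF

section general

variable {U W C : Type} [AddCommGroup U] [AddCommGroup W] [AddCommGroup C]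

/-- The Heisenberg type group of a biadditive map. -/
@[ext] structure Hei (β : U →+ W →+ C) where
  u : U
  w : W
  c : C

variable {β : U →+ W →+ C}

instance : Mul (Hei β) := ⟨fun x y => ⟨x.u + y.u, x.w + y.w, x.c + y.c + β x.u y.w⟩⟩
instance : One (Hei β) := ⟨⟨0, 0, 0⟩⟩
instance : Inv (Hei β) := ⟨fun x => ⟨-x.u, -x.w, -x.c + β x.u x.w⟩⟩

theorem Hei.mul_def (x y : Hei β) : x * y = ⟨x.u + y.u, x.w + y.w, x.c + y.c + β x.u y.w⟩ := rfl
theorem Hei.one_def : (1 : Hei β) = ⟨0, 0, 0⟩ := rfl
theorem Hei.inv_def (x : Hei β) : x⁻¹ = ⟨-x.u, -x.w, -x.c + β x.u x.w⟩ := rfl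

instance : Group (Hei β) where
  mul_assoc x y z := by
    simp only [Hei.mul_def, map_add, AddMonoidHom.add_apply]
    ext
    · exact add_assoc _ _ _
    · exact add_assoc _ _ _
    · dsimp only
      abel
  one_mul x := by
    simp only [Hei.mul_def, Hei.one_def, map_zero, AddMonoidHom.zero_apply, zero_add, add_zero]
  mul_one x := by
    simp only [Hei.mul_def, Hei.one_def, map_zero, add_zero]
  inv_mul_cancel x := by
    simp only [Hei.mul_def, Hei.one_def, Hei.inv_def, map_neg, AddMonoidHom.neg_apply]
    ext
    · exact neg_add_cancel _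
    · exact neg_add_cancel _
    · dsimp only
      abel

/-- functoriality -/
def Hei.map {U' W' C' : Type} [AddCommGroup U'] [AddCommGroup W'] [AddCommGroup C']
    {β' : U' →+ W' →+ C'} (fU : U →+ U') (fW : W →+ W') (fC : C →+ C')
    (h : ∀ u w, fC (β u w) = β' (fU u) (fW w)) : Hei β →* Hei β' where
  toFun x := ⟨fU x.u, fW x.w, fC x.c⟩
  map_one' := by simp [Hei.one_def]
  map_mul' x y := by simp [Hei.mul_def, h]

variable [Module (ZMod 2) C]

/-- the action of the group of order two -/
def act (β : U →+ W →+ C) (l : U →+ C) : Multiplicative (ZMod 2) →* MulAut (Hei β) where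
  toFun s :=
    { toFun := fun x => ⟨x.u, x.w, x.c + s.toAdd • l x.u⟩
      invFun := fun x => ⟨x.u, x.w, x.c - s.toAdd • l x.u⟩
      left_inv := fun x => by simp
      right_inv := fun x => by simp
      map_mul' := fun x y => by
        simp only [Hei.mul_def, map_add, smul_add]
        ext
        · rfl
        · rfl
        · dsimp only
          abel }
  map_one' := by
    ext x : 1
    simp
  map_mul' s s' := by
    ext x : 1
    simp only [toAdd_mul, add_smul, MulAut.mul_apply, MulEquiv.coe_mk, Equiv.coe_fn_mk]
    ext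
    · rfl
    · rfl
    · dsimp only
      abel

theorem act_apply (l : U →+ C) (s : Multiplicative (ZMod 2)) (x : Hei β) :
    act β l s x = ⟨x.u, x.w, x.c + s.toAdd • l x.u⟩ := rfl

/-- the semidirect product -/
abbrev Gr (β : U →+ W →+ C) (l : U →+ C) : Type :=
  SemidirectProduct (Hei β) (Multiplicative (ZMod 2)) (act β l)

end general

/-! ## Locally finite groups with retractions -/

/-- every finite subset lies in a finite subgroup -/
def LocFin (B : Type) [Group B] : Prop :=
  ∀ S : Finset B, ∃ F : Subgroup B, Finite F ∧ ∀ s ∈ S, s ∈ F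

/-- every finite subset is fixed by an endomorphism with finite range -/
def LocRet (H : Type) [Group H] : Prop :=
  ∀ S : Finset H, ∃ r : H →* H, Finite r.range ∧ ∀ s ∈ S, r s = s ∧ ∀ h : H, r (r h) = r h

/-! ## The example -/

/-- finitely supported sequences over the field with two elements -/
abbrev V : Type := ℕ →₀ ZMod 2

/-- pointwise product -/
noncomputable def β0 : V →+ V →+ V := AddMonoidHom.mul

/-- the sum of the entries -/
noncomputable def tr : V →+ ZMod 2 := Finsupp.liftAddHom fun _ => AddMonoidHom.id _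

/-- `u ↦ u + (∑ u) e_0` -/
noncomputable def l0 : V →+ V := AddMonoidHom.id V + (Finsupp.singleAddHom 0).comp tr

/-- pointwise product followed by the sum -/
noncomputable def β1 : V →+ V →+ ZMod 2 := (AddMonoidHom.compHom tr).comp β0

theorem tr_single (i : ℕ) (x : ZMod 2) : tr (Finsupp.single i x) = x := by
  simp [tr]

theorem β0_apply (u w : V) : β0 u w = u * w := rfl

theorem β1_apply (u w : V) : β1 u w = tr (u * w) := rfl

theorem l0_apply (u : V) : l0 u = u + Finsupp.single 0 (tr u) := rfl

theorem tr_l0 (u : V) : tr (l0 u) = 0 := by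
  rw [l0_apply, map_add, tr_single]
  exact CharTwo.add_self_eq_zero _

/-- the direct sum of countably many dihedral groups of order eight -/
abbrev HH : Type := Hei β0

/-- the extraspecial group -/
abbrev BB : Type := Hei β1

/-- the group -/
abbrev GG : Type := Gr β0 l0

/-- `t ↦ 1`, `z_i ↦ z` -/
noncomputable def θ : GG →* BB :=
  SemidirectProduct.lift
    (Hei.map (AddMonoidHom.id V) (AddMonoidHom.id V) tr fun u w => rfl) 1 (by
      intro s
      ext x : 1
      simp only [MonoidHom.comp_apply, MonoidHom.one_apply, map_one]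
      show (⟨x.u, x.w, tr (x.c + s.toAdd • l0 x.u)⟩ : BB) = ⟨x.u, x.w, tr x.c⟩
      congr 1
      rw [map_add]
      have : tr (s.toAdd • l0 x.u) = 0 := by
        rw [ZMod.map_smul tr, tr_l0, smul_zero]
      rw [this, add_zero])

/-- the elements -/
noncomputable def aa (i : ℕ) : HH := ⟨Finsupp.single i 1, 0, 0⟩
/-- the elements -/
noncomputable def bb (i : ℕ) : HH := ⟨0, Finsupp.single i 1, 0⟩
/-- the elements -/
noncomputable def zz (i : ℕ) : HH := ⟨0, 0, Finsupp.single i 1⟩
/-- the involution outside `HH` -/
noncomputable def tt : GG := SemidirectProduct.inr (Multiplicative.ofAdd (1 : ZMod 2))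

theorem ab (i : ℕ) : aa i * bb i = zz i * (bb i * aa i) := by
  simp only [aa, bb, zz, Hei.mul_def, β0_apply]
  ext : 1
  · simp
  · simp
  · simp [← Finsupp.single_mul]

theorem aa_comm (i j : ℕ) : Commute (aa i) (aa j) := by
  show _ * _ = _ * _
  simp only [aa, Hei.mul_def, map_zero, add_comm]

theorem ab_comm {i j : ℕ} (h : i ≠ j) : Commute (aa i) (bb j) := by
  show _ * _ = _ * _
  simp only [aa, bb, Hei.mul_def, β0_apply]
  ext : 1
  · simp
  · simp
  · ext k
    by_cases hk : k = i
    · subst hk; simp [h]
    · simp [Finsupp.single_apply, Ne.symm hk]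

theorem ta (i : ℕ) : tt * SemidirectProduct.inl (aa i) =
    SemidirectProduct.inl (aa i) * (tt * (SemidirectProduct.inl (zz 0) *
      SemidirectProduct.inl (zz i))) := by
  have h1 : (act β0 l0 (Multiplicative.ofAdd (1 : ZMod 2)) (aa i) : HH) =
      aa i * (zz 0 * zz i) := by
    rw [act_apply]
    simp only [aa, zz, Hei.mul_def, l0_apply, tr_single]
    ext : 1
    · simp
    · simp
    · simp [add_comm]
  have h2 : (act β0 l0 (Multiplicative.ofAdd (1 : ZMod 2)) (zz 0 * zz i) : HH) =
      zz 0 * zz i := by
    rw [act_apply]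
    simp [zz, Hei.mul_def]
  have h3 : ∀ x : HH, tt * (SemidirectProduct.inl x : GG) =
      SemidirectProduct.inl (act β0 l0 (Multiplicative.ofAdd (1 : ZMod 2)) x) * tt := by
    intro x
    rw [SemidirectProduct.inl_aut, tt, map_inv, inv_mul_cancel_right]
  rw [← map_mul SemidirectProduct.inl, h3, h3, h1, h2, map_mul, mul_assoc]

end Pool.Agent.Helper784LF
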