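import Pool.Agent.Helper784LF.OpDefs
import Pool.Agent.Helper784LF.Ex

/-!
# Weak C*-stability of countable groups with retractions
-/

set_option autoImplicit false

open Filter Topology
open scoped ComplexOrder

namespace Pool.Agent.Helper784LF

/-- a diagonal argument -/
theorem diag {P : ℕ → ℕ → Prop} (h : ∀ j, ∀ᶠ n in atTop, P j n) :
    ∃ m : ℕ → ℕ, Tendsto m atTop atTop ∧ ∀ᶠ n in atTop, P (m n) n := by
  classical
  have h1 : ∀ j, ∀ᶠ n in atTop, ∀ i ≤ j, P i n := by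
    intro j
    have : ∀ᶠ n in atTop, ∀ i ∈ Finset.range (j + 1), P i n :=
      (Filter.eventually_all_finset _).2 fun i _ => h i
    filter_upwards [this] with n hn i hi
    exact hn i (Finset.mem_range.2 (by omega))
  refine ⟨fun n => Nat.findGreatest (fun j => ∀ i ≤ j, P i n) n, ?_, ?_⟩
  · rw [tendsto_atTop]
    intro j
    filter_upwards [h1 j, eventually_ge_atTop j] with n hn hj
    exact Nat.le_findGreatest hj hn
  · filter_upwards [h1 0] with n hn
    exact Nat.findGreatest_spec (P := fun j => ∀ i ≤ j, P i n) (Nat.zero_le n) hn _ le_rfl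

/-- the statement of the finite case -/
def FinStar : Prop := ∀ (F : Type) [Group F] [Finite F] (ε : ℝ), 0 < ε →
    ∃ δ : ℝ, 0 < δ ∧ ∀ (B : Type) [NonUnitalCStarAlgebra B] (f : F → B),
      (∀ g h : F, ‖f (g * h) - f g * f h‖ ≤ δ) → (∀ g : F, ‖f g⁻¹ - star (f g)‖ ≤ δ) →
      ∃ ρ : F → B, (∀ g h : F, ρ (g * h) = ρ g * ρ h) ∧ (∀ g : F, ρ g⁻¹ = star (ρ g)) ∧
        ∀ g : F, ‖f g - ρ g‖ ≤ ε

theorem LocRet.weakly {H : Type} [Group H] [Countable H] (hF : FinStar) (hH : LocRet H) :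
    WeaklyCStarStable H := by
  classical
  intro B _ φ hφ
  obtain ⟨e, he⟩ := exists_surjective_nat H
  let S : ℕ → Finset H := fun j => (Finset.range (j + 1)).image e
  let P : ℕ → ℕ → Prop := fun j n => ∃ ρ : H → B n, IsRep ρ ∧
    ∀ s ∈ S j, ‖φ n s - ρ s‖ ≤ 1 / ((j : ℝ) + 1)
  have hP : ∀ j, ∀ᶠ n in atTop, P j n := by
    intro j
    obtain ⟨r, hfin, hr⟩ := hH (S j)
    obtain ⟨δ, hδ, hst⟩ := hF r.range (1 / ((j : ℝ) + 1)) (by positivity)
    have h1 : ∀ᶠ n in atTop, ∀ g h : r.range, ‖φ n ((g : H) * h) - φ n g * φ n h‖ ≤ δ := by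
      rw [Filter.eventually_all]
      intro g
      rw [Filter.eventually_all]
      intro h
      exact ((hφ.1 g h).eventually (ge_mem_nhds hδ))
    have h2 : ∀ᶠ n in atTop, ∀ g : r.range, ‖φ n ((g : H)⁻¹) - star (φ n g)‖ ≤ δ := by
      rw [Filter.eventually_all]
      intro g
      exact ((hφ.2 g).eventually (ge_mem_nhds hδ))
    filter_upwards [h1, h2] with n hn1 hn2
    obtain ⟨ρ, hρ1, hρ2, hρ3⟩ := hst (B n) (fun g => φ n (g : H)) hn1 hn2
    refine ⟨fun h => ρ (r.rangeRestrict h), ⟨fun g h => ?_, fun g => ?_⟩, fun s hs => ?_⟩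
    · show ρ (r.rangeRestrict (g * h)) = ρ (r.rangeRestrict g) * ρ (r.rangeRestrict h)
      rw [map_mul, hρ1]
    · show ρ (r.rangeRestrict g⁻¹) = star (ρ (r.rangeRestrict g))
      rw [map_inv, hρ2]
    · have h3 := hρ3 (r.rangeRestrict s)
      have h4 : ((r.rangeRestrict s : r.range) : H) = s := (hr s hs).1
      rwa [h4] at h3
  obtain ⟨m, hm, hPm⟩ := diag hP
  let ρ : ∀ n, H → B n := fun n => if h : P (m n) n then h.choose else fun _ => 0
  refine ⟨ρ, fun n => ?_, fun g => ?_⟩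
  · by_cases h : P (m n) n
    · simp only [ρ, dif_pos h]
      exact h.choose_spec.1
    · simp only [ρ, dif_neg h]
      exact ⟨fun _ _ => (mul_zero _).symm, fun _ => star_zero _ |>.symm⟩
  · obtain ⟨i, hi⟩ := he g
    have h1 : Tendsto (fun n => 1 / ((m n : ℝ) + 1)) atTop (𝓝 0) :=
      tendsto_one_div_add_atTop_nhds_zero_nat.comp hm
    refine squeeze_zero' (Eventually.of_forall fun n => norm_nonneg _) ?_ h1
    filter_upwards [hPm, hm.eventually_ge_atTop i] with n hn hi2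
    simp only [ρ, dif_pos hn]
    refine hn.choose_spec.2 g (Finset.mem_image.2 ⟨i, Finset.mem_range.2 (by omega), hi⟩)

/-! ## The obstruction -/

/-- the permutation matrix -/
def pmc {n : ℕ} (σ : Equiv.Perm (Fin n)) : CStarMatrix (Fin n) (Fin n) ℂ :=
  CStarMatrix.ofMatrix fun i j => if i = σ j then 1 else 0

theorem pmc_apply {n : ℕ} (σ : Equiv.Perm (Fin n)) (i j : Fin n) :
    pmc σ i j = if i = σ j then 1 else 0 := rfl

theorem pmc_mul {n : ℕ} (σ τ : Equiv.Perm (Fin n)) : pmc (σ * τ) = pmc σ * pmc τ := by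
  ext i j
  rw [CStarMatrix.mul_apply, Finset.sum_eq_single (τ j)]
  · by_cases h : i = σ (τ j) <;> simp [pmc_apply, h]
  · intro b _ hb; simp [pmc_apply, hb]
  · intro h; exact absurd (Finset.mem_univ _) h

theorem pmc_one {n : ℕ} : pmc (1 : Equiv.Perm (Fin n)) = 1 := by
  ext i j
  by_cases h : i = j
  · subst h; simp [pmc_apply]
  · rw [CStarMatrix.one_apply_ne h]; simp [pmc_apply, h]

theorem pmc_star {n : ℕ} (σ : Equiv.Perm (Fin n)) : star (pmc σ) = pmc σ⁻¹ := by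
  ext i j
  rw [CStarMatrix.star_apply, pmc_apply, pmc_apply]
  have : (j = σ i) ↔ (i = σ⁻¹ j) := by
    rw [Equiv.Perm.eq_inv_iff_eq, eq_comm]
  by_cases h : j = σ i
  · rw [if_pos h, if_pos (this.1 h), star_one]
  · rw [if_neg h, if_neg fun h2 => h (this.2 h2), star_zero]

theorem pmc_far {n : ℕ} (hn : 0 < n) (σ : Equiv.Perm (Fin n)) (h : ∀ i, σ i ≠ i) :
    1 ≤ ‖pmc σ - 1‖ := by
  have h1 := CStarMatrix.norm_entry_le_norm (M := pmc σ - 1) (i := ⟨0, hn⟩) (j := ⟨0, hn⟩)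
  rw [CStarMatrix.sub_apply, pmc_apply, if_neg (fun hh => h _ hh.symm), CStarMatrix.one_apply_eq,
    zero_sub, norm_neg, norm_one] at h1
  exact h1

/-- centralizer chains in matrix algebras -/
theorem exists_comm_mat {n : ℕ} (a b : ℕ → CStarMatrix (Fin n) (Fin n) ℂ)
    (hab : ∀ i j, i ≠ j → Commute (a i) (b j)) : ∃ i, Commute (a i) (b i) := by
  by_contra hc
  push Not at hc
  let C : ℕ → Submodule ℂ (Matrix (Fin n) (Fin n) ℂ) := fun k =>
    { carrier := {x | ∀ j < k, Commute (a j) (CStarMatrix.ofMatrix x)}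
      add_mem' := fun {x y} hx hy j hj => (hx j hj).add_right (hy j hj)
      zero_mem' := fun j _ => Commute.zero_right _
      smul_mem' := fun c x hx j hj => (hx j hj).smul_right c }
  refine descent (fun k => Module.finrank ℂ (C k)) fun k => ?_
  apply Submodule.finrank_lt_finrank_of_lt
  constructor
  · intro x hx j hj
    exact hx j (by omega)
  · intro h
    have h1 : CStarMatrix.ofMatrix.symm (b k) ∈ C k := fun j hj => hab j k (by omega)
    exact hc k (h h1 k (by omega))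

theorem rep_norm {G D : Type} [Group G] [NonUnitalCStarAlgebra D] {ρ : G → D} (h : IsRep ρ)
    (g : G) : ‖ρ g‖ ≤ 1 := by
  have h1 : star (ρ g) * ρ g = ρ 1 := by rw [← h.2, ← h.1, inv_mul_cancel]
  have h2 : ρ 1 * ρ 1 = ρ 1 := by rw [← h.1, mul_one]
  have h3 : star (ρ 1) = ρ 1 := by rw [← h.2, inv_one]
  have h4 : ‖ρ 1‖ ≤ 1 := by
    have h5 : ‖ρ 1‖ * ‖ρ 1‖ = ‖ρ 1‖ := by
      rw [← CStarRing.norm_star_mul_self, h3, h2]
    by_contra hc
    push Not at hc
    nlinarith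
  have h5 : ‖ρ g‖ * ‖ρ g‖ ≤ 1 := by
    rw [← CStarRing.norm_star_mul_self, h1]; exact h4
  nlinarith [norm_nonneg (ρ g)]

/-- conjugacy of `t` and `t z_0` in representations -/
theorem conj_rep {n : ℕ} {ρ : GG → CStarMatrix (Fin n) (Fin n) ℂ} (h : IsRep ρ) :
    ‖ρ (tt * SemidirectProduct.inl (zz 0)) - ρ 1‖ ≤ ‖ρ tt - ρ 1‖ := by
  obtain ⟨i, hi⟩ := exists_comm_mat (fun i => ρ (SemidirectProduct.inl (aa i)))
    (fun i => ρ (SemidirectProduct.inl (bb i)))
    (fun i j hij => by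
      show _ * _ = _ * _
      rw [← h.1, ← h.1, ← map_mul, ← map_mul, (ab_comm hij).eq])
  set A : GG := SemidirectProduct.inl (aa i) with hA
  set Bb : GG := SemidirectProduct.inl (bb i) with hB
  have h1 : ρ (SemidirectProduct.inl (zz i)) = ρ 1 := by
    have h2 : ρ (A * Bb) = ρ (SemidirectProduct.inl (zz i) * (Bb * A)) := by
      rw [hA, hB, ← map_mul, ← map_mul, ← map_mul, ab i]
    have h3 : ρ (A * Bb) = ρ (Bb * A) := by
      rw [h.1, h.1]; exact hi
    have h4 : ρ (Bb * A) * ρ (Bb * A)⁻¹ =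
        ρ (SemidirectProduct.inl (zz i) * (Bb * A)) * ρ (Bb * A)⁻¹ := by rw [← h2, h3]
    rw [← h.1, ← h.1, mul_inv_cancel, mul_assoc, mul_inv_cancel, mul_one] at h4
    exact h4.symm
  have h2 : ρ (tt * SemidirectProduct.inl (zz 0)) = ρ A⁻¹ * ρ tt * ρ A := by
    have h3 := ta i
    have h4 : ρ A⁻¹ * ρ tt * ρ A = ρ (A⁻¹ * (tt * A)) := by
      rw [h.1, h.1, mul_assoc]
    rw [h4, hA, h3, ← mul_assoc, inv_mul_cancel, one_mul, ← mul_assoc, h.1 (tt * _), h1, ← h.1,
      mul_one]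
  have h3 : ρ 1 = ρ A⁻¹ * ρ 1 * ρ A := by
    rw [← h.1, ← h.1, mul_one, inv_mul_cancel]
  have h4 : ρ (tt * SemidirectProduct.inl (zz 0)) - ρ 1 = ρ A⁻¹ * (ρ tt - ρ 1) * ρ A := by
    rw [h2, mul_sub, sub_mul, ← h3]
  rw [h4]
  calc ‖ρ A⁻¹ * (ρ tt - ρ 1) * ρ A‖ ≤ ‖ρ A⁻¹‖ * ‖ρ tt - ρ 1‖ * ‖ρ A‖ :=
        (norm_mul_le _ _).trans (mul_le_mul_of_nonneg_right (norm_mul_le _ _) (norm_nonneg _))
    _ ≤ 1 * ‖ρ tt - ρ 1‖ * 1 := by
        gcongr
        · exact rep_norm h _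
        · exact rep_norm h _
    _ = ‖ρ tt - ρ 1‖ := by ring

/-- finite models which are exact on a given finite set -/
theorem exists_model (T : Finset GG) :
    ∃ (n : ℕ) (f : GG → Equiv.Perm (Fin n)), 0 < n ∧ (∀ g ∈ T, ∀ h ∈ T, f (g * h) = f g * f h) ∧
      (∀ g ∈ T, f g⁻¹ = (f g)⁻¹) ∧ f 1 = 1 ∧ f tt = 1 ∧
      ∀ i, f (tt * SemidirectProduct.inl (zz 0)) i ≠ i := by
  classical
  obtain ⟨F, hF, hmem⟩ := locFin_BB ((insert (tt * SemidirectProduct.inl (zz 0)) T).image θ)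
  have : Fintype F := Fintype.ofFinite _
  let e := Fintype.equivFin F
  let f : GG → Equiv.Perm (Fin (Fintype.card F)) := fun g =>
    if h : θ g ∈ F then e.permCongr (Equiv.mulLeft (⟨θ g, h⟩ : F)) else 1
  have hf : ∀ g (h : θ g ∈ F), f g = e.permCongr (Equiv.mulLeft (⟨θ g, h⟩ : F)) :=
    fun g h => dif_pos h
  have hmul : ∀ g h : GG, θ g ∈ F → θ h ∈ F → f (g * h) = f g * f h := by
    intro g h h1 h2
    have h3 : θ (g * h) ∈ F := by rw [map_mul]; exact F.mul_mem h1 h2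
    rw [hf g h1, hf h h2, hf (g * h) h3]
    ext i : 1
    simp only [Equiv.Perm.mul_apply, Equiv.permCongr_apply, Equiv.symm_apply_apply]
    congr 1
    show (⟨θ (g * h), h3⟩ : F) * e.symm i = (⟨θ g, h1⟩ : F) * ((⟨θ h, h2⟩ : F) * e.symm i)
    rw [← mul_assoc]
    congr 1
    exact Subtype.ext (map_mul _ _ _)
  have hone : ∀ g : GG, θ g = 1 → f g = 1 := by
    intro g hg
    rw [hf g (by rw [hg]; exact F.one_mem)]
    ext i : 1
    simp only [Equiv.permCongr_apply, Equiv.Perm.coe_one, id_eq]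
    have : (⟨θ g, by rw [hg]; exact F.one_mem⟩ : F) = 1 := Subtype.ext hg
    rw [this]
    simp
  have hT : ∀ g ∈ T, θ g ∈ F := fun g hg =>
    hmem _ (Finset.mem_image_of_mem _ (Finset.mem_insert_of_mem hg))
  refine ⟨Fintype.card F, f, Fintype.card_pos, fun g hg h hh => hmul g h (hT g hg) (hT h hh),
    fun g hg => ?_, hone 1 (map_one _), hone tt θ_tt, fun i h => ?_⟩
  · have h1 : θ g⁻¹ ∈ F := by rw [map_inv]; exact F.inv_mem (hT g hg)
    have h2 := hmul g⁻¹ g h1 (hT g hg)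
    rw [inv_mul_cancel, hone 1 (map_one _)] at h2
    exact eq_inv_of_mul_eq_one_left h2.symm
  · have hz1 : θ (tt * SemidirectProduct.inl (zz 0)) ∈ F :=
      hmem _ (Finset.mem_image_of_mem _ (Finset.mem_insert_self _ _))
    rw [hf _ hz1, Equiv.permCongr_apply] at h
    have h3 := congrArg e.symm h
    rw [Equiv.symm_apply_apply] at h3
    have h4 : (⟨θ (tt * SemidirectProduct.inl (zz 0)), hz1⟩ : F) * e.symm i = e.symm i := h3
    exact θ_tz (congrArg Subtype.val (mul_eq_right.1 h4))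

theorem not_matricially : ¬ MatriciallyStable GG := by
  classical
  intro hst
  obtain ⟨e, he⟩ := exists_surjective_nat GG
  let T : ℕ → Finset GG := fun j => (Finset.range (j + 1)).image e
  have hT : ∀ g : GG, ∀ᶠ n in atTop, g ∈ T n := by
    intro g
    obtain ⟨i, hi⟩ := he g
    filter_upwards [eventually_ge_atTop i] with n hn
    exact Finset.mem_image.2 ⟨i, Finset.mem_range.2 (by omega), hi⟩
  choose k f hk hmul hinv hone htt hz using fun j => exists_model (T j)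
  have hA : IsAsympRep (fun n g => pmc (f n g)) := by
    refine ⟨fun g h => ?_, fun g => ?_⟩
    · refine tendsto_const_nhds.congr' ?_
      filter_upwards [hT g, hT h] with n hn1 hn2
      rw [hmul n g hn1 h hn2, pmc_mul, sub_self, norm_zero]
    · refine tendsto_const_nhds.congr' ?_
      filter_upwards [hT g] with n hn1
      rw [hinv n g hn1, pmc_star, sub_self, norm_zero]
  obtain ⟨ρ, hρ, hlim⟩ := hst k (fun n g => pmc (f n g)) hA
  have h1 := hlim 1
  have h2 := hlim tt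
  have h3 := hlim (tt * SemidirectProduct.inl (zz 0))
  have h4 := (h2.add h1).add (h3.add h1)
  rw [add_zero, add_zero] at h4
  have h5 : (1 : ℝ) ≤ 0 := by
    refine ge_of_tendsto' h4 fun n => ?_
    have e1 : ‖ρ n tt - ρ n 1‖ ≤ ‖pmc (f n tt) - ρ n tt‖ + ‖pmc (f n 1) - ρ n 1‖ := by
      have : ρ n tt - ρ n 1 = (pmc (f n 1) - ρ n 1) - (pmc (f n tt) - ρ n tt) := by
        rw [hone, htt]; abel
      rw [this, add_comm]
      exact norm_sub_le _ _
    have e2 := conj_rep (hρ n)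
    have e3 := pmc_far (hk n) _ (hz n)
    have e4 : pmc (f n (tt * SemidirectProduct.inl (zz 0))) - 1 =
        (pmc (f n (tt * SemidirectProduct.inl (zz 0))) -
          ρ n (tt * SemidirectProduct.inl (zz 0))) +
        (ρ n (tt * SemidirectProduct.inl (zz 0)) - ρ n 1) - (pmc (f n 1) - ρ n 1) := by
      rw [hone, pmc_one]; abel
    have e5 : ‖pmc (f n (tt * SemidirectProduct.inl (zz 0))) - 1‖ ≤
        ‖pmc (f n (tt * SemidirectProduct.inl (zz 0))) -
          ρ n (tt * SemidirectProduct.inl (zz 0))‖ +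
        ‖ρ n (tt * SemidirectProduct.inl (zz 0)) - ρ n 1‖ + ‖pmc (f n 1) - ρ n 1‖ := by
      rw [e4]
      exact (norm_sub_le _ _).trans (by gcongr; exact norm_add_le _ _)
    linarith
  norm_num at h5

end Pool.Agent.Helper784LF
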