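import Mathlib

/-!
# Stability of full group C*-algebras

A `*`-homomorphism from the full group C*-algebra of `G` to a C*-algebra `D` (unital or not, and not required to
preserve a unit) is the same as a map `ρ : G → D` with `ρ (g h) = ρ g ρ h` and `ρ g⁻¹ = (ρ g)*`.
-/

set_option autoImplicit false

open Filter Topology
open scoped ComplexOrder

namespace Pool.Agent.Helper784LF

/-- multiplicative maps with `ρ g⁻¹ = (ρ g)*`: the `*`-homomorphisms from the full group C*-algebra to `D` -/
def IsRep {G : Type} [Group G] {D : Type} [NonUnitalCStarAlgebra D] (ρ : G → D) : Prop :=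
  (∀ g h : G, ρ (g * h) = ρ g * ρ h) ∧ ∀ g : G, ρ g⁻¹ = star (ρ g)

/-- sequences of maps which give a map with the property `IsRep` to the quotient `∏ B n / ⨁ B n` -/
def IsAsympRep {G : Type} [Group G] {B : ℕ → Type} [∀ n, NonUnitalCStarAlgebra (B n)]
    (φ : ∀ n, G → B n) : Prop :=
  (∀ g h : G, Tendsto (fun n => ‖φ n (g * h) - φ n g * φ n h‖) atTop (𝓝 0)) ∧
  ∀ g : G, Tendsto (fun n => ‖φ n g⁻¹ - star (φ n g)‖) atTop (𝓝 0)

/-- every `*`-homomorphism from the full group C*-algebra of `G` to `∏ B n / ⨁ B n` lifts to `∏ B n` -/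
def LiftsFor (G : Type) [Group G] (B : ℕ → Type) [∀ n, NonUnitalCStarAlgebra (B n)] : Prop :=
  ∀ φ : ∀ n, G → B n, IsAsympRep φ →
    ∃ ρ : ∀ n, G → B n, (∀ n, IsRep (ρ n)) ∧
      ∀ g : G, Tendsto (fun n => ‖φ n g - ρ n g‖) atTop (𝓝 0)

/-- weak C*-stability: the full group C*-algebra is weakly semiprojective (here with all
C*-algebras as targets, not only the separable ones) -/
def WeaklyCStarStable (G : Type) [Group G] : Prop :=
  ∀ (B : ℕ → Type) [∀ n, NonUnitalCStarAlgebra (B n)], LiftsFor G B

/-- matricial stability: the full group C*-algebra is matricially weakly semiprojective -/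
def MatriciallyStable (G : Type) [Group G] : Prop :=
  ∀ k : ℕ → ℕ, LiftsFor G fun n => CStarMatrix (Fin (k n)) (Fin (k n)) ℂ

end Pool.Agent.Helper784LF
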