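import Pool.Agent.Helper784LF.Grp

/-!
# Stability in permutations of locally finite groups with retractions, and an obstruction
-/

set_option autoImplicit false

namespace Pool.Agent.Helper784LF

/-! ## Finite groups -/

/-- finite groups are stable in permutations -/
theorem fin_perm_stable (F : Type) [Group F] [Finite F] (ε : ℝ) (hε : 0 < ε) :
    ∃ δ : ℝ, 0 < δ ∧ ∀ (n : ℕ) (f : F → Equiv.Perm (Fin n)),
      (∀ g h : F, ((Finset.univ.filter (fun i : Fin n => f (g * h) i ≠ (f g * f h) i)).card : ℝ)
        / (n : ℝ) < δ) →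
      ∃ ρ : F →* Equiv.Perm (Fin n), ∀ g : F,
        ((Finset.univ.filter (fun i : Fin n => f g i ≠ ρ g i)).card : ℝ) / (n : ℝ) < ε := by
  classical
  have : Fintype F := Fintype.ofFinite F
  set N : ℕ := Fintype.card F with hN
  refine ⟨ε / ((1 + N) * (N * N) + 1), by positivity, ?_⟩
  intro n f hf
  let bad : F → F → Finset (Fin n) := fun g h =>
    Finset.univ.filter (fun i : Fin n => f (g * h) i ≠ (f g * f h) i)
  let Zc : Finset (Fin n) := (Finset.univ : Finset (F × F)).biUnion fun p => bad p.1 p.2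
  have hZc : ∀ x, x ∉ Zc → ∀ g h, f (g * h) x = f g (f h x) := by
    intro x hx g h
    by_contra hc
    exact hx (Finset.mem_biUnion.2 ⟨(g, h), Finset.mem_univ _, Finset.mem_filter.2
      ⟨Finset.mem_univ _, hc⟩⟩)
  let Yc : Finset (Fin n) := Zc ∪ (Finset.univ : Finset F).biUnion fun k =>
    Finset.univ.filter (fun x => f k x ∈ Zc)
  have hYc : ∀ x, x ∉ Yc → x ∉ Zc ∧ ∀ k, f k x ∉ Zc := by
    intro x hx
    refine ⟨fun h => hx (Finset.mem_union_left _ h), fun k h => hx (Finset.mem_union_right _
      (Finset.mem_biUnion.2 ⟨k, Finset.mem_univ _, Finset.mem_filter.2 ⟨Finset.mem_univ _, h⟩⟩))⟩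
  have hYc' : ∀ x, x ∉ Zc → (∀ k, f k x ∉ Zc) → x ∉ Yc := by
    intro x h1 h2 hx
    rcases Finset.mem_union.1 hx with h | h
    · exact h1 h
    · obtain ⟨k, -, hk⟩ := Finset.mem_biUnion.1 h
      exact h2 k (Finset.mem_filter.1 hk).2
  have hinv : ∀ x, x ∉ Yc → ∀ k, f k x ∉ Yc := by
    intro x hx k
    obtain ⟨h1, h2⟩ := hYc x hx
    refine hYc' _ (h2 k) fun j => ?_
    rw [← hZc x h1]
    exact h2 _
  have hone : ∀ x, x ∉ Yc → f 1 x = x := by
    intro x hx
    have h := hZc x (hYc x hx).1 1 1
    rw [mul_one] at h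
    exact ((f 1).injective h).symm
  let act : MulAction F (Fin n) :=
    { smul := fun g x => if x ∈ Yc then x else f g x
      one_smul := fun x => by
        show (if x ∈ Yc then x else f 1 x) = x
        split_ifs with h
        · rfl
        · exact hone x h
      mul_smul := fun g h x => by
        show (if x ∈ Yc then x else f (g * h) x) = (if (if x ∈ Yc then x else f h x) ∈ Yc then
          (if x ∈ Yc then x else f h x) else f g (if x ∈ Yc then x else f h x))
        by_cases hx : x ∈ Yc
        · simp only [if_pos hx]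
        · simp only [if_neg hx, if_neg (hinv x hx h)]
          exact hZc x (hYc x hx).1 g h }
  refine ⟨@MulAction.toPermHom F (Fin n) _ act, fun g => ?_⟩
  have hsub : (Finset.univ.filter (fun i : Fin n => f g i ≠
      (@MulAction.toPermHom F (Fin n) _ act) g i)) ⊆ Yc := by
    intro i hi
    by_contra hc
    apply (Finset.mem_filter.1 hi).2
    show f g i = (if i ∈ Yc then i else f g i)
    rw [if_neg hc]
  rcases Nat.eq_zero_or_pos n with hn | hn
  · subst hn
    simpa using hε
  have hn' : (0 : ℝ) < n := by exact_mod_cast hn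
  set δ : ℝ := ε / ((1 + N) * (N * N) + 1) with hδ
  have hbad : ∀ g h, ((bad g h).card : ℝ) ≤ δ * n := fun g h =>
    (((div_lt_iff₀ hn').1 (hf g h))).le
  have hZcard : (Zc.card : ℝ) ≤ (N * N) * (δ * n) := by
    calc (Zc.card : ℝ) ≤ ∑ p : F × F, ((bad p.1 p.2).card : ℝ) := by
          exact_mod_cast Finset.card_biUnion_le
      _ ≤ ∑ p : F × F, δ * n := Finset.sum_le_sum fun p _ => hbad p.1 p.2
      _ = (N * N) * (δ * n) := by
          rw [Finset.sum_const, Finset.card_univ, Fintype.card_prod, nsmul_eq_mul]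
          push_cast
          rw [hN]
  have hYcard : (Yc.card : ℝ) ≤ (1 + N) * ((N * N) * (δ * n)) := by
    have h1 : ∀ k : F, (Finset.univ.filter (fun x => f k x ∈ Zc)).card = Zc.card := by
      intro k
      apply Finset.card_bij (fun x _ => f k x)
      · intro x hx; exact (Finset.mem_filter.1 hx).2
      · intro x _ y _ h; exact (f k).injective h
      · intro y hy
        exact ⟨(f k).symm y, Finset.mem_filter.2 ⟨Finset.mem_univ _, by simpa using hy⟩, by simp⟩
    have h2 : Yc.card ≤ Zc.card + N * Zc.card := by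
      refine (Finset.card_union_le _ _).trans (Nat.add_le_add_left ?_ _)
      refine Finset.card_biUnion_le.trans ?_
      rw [Finset.sum_congr rfl fun k _ => h1 k, Finset.sum_const, Finset.card_univ, smul_eq_mul]
    have h3 : (Yc.card : ℝ) ≤ (1 + N) * Zc.card := by
      have : (Yc.card : ℝ) ≤ Zc.card + N * Zc.card := by exact_mod_cast h2
      linarith
    exact h3.trans (mul_le_mul_of_nonneg_left hZcard (by positivity))
  have h4 : ((Finset.univ.filter (fun i : Fin n => f g i ≠
      (@MulAction.toPermHom F (Fin n) _ act) g i)).card : ℝ) ≤ Yc.card := by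
    exact_mod_cast Finset.card_le_card hsub
  rw [div_lt_iff₀ hn']
  have h5 : (1 + (N : ℝ)) * ((N * N) * (δ * n)) < ε * n := by
    have h6 : ((1 + (N : ℝ)) * (N * N)) * δ < ε := by
      rw [hδ, mul_div_assoc', div_lt_iff₀ (by positivity)]
      nlinarith
    calc (1 + (N : ℝ)) * ((N * N) * (δ * n)) = ((1 + (N : ℝ)) * (N * N)) * δ * n := by ring
      _ < ε * n := by gcongr
  linarith

/-- a local form of stability in permutations -/
def PSt (K : Type) [Group K] : Prop :=
  ∀ (S : Finset K) (ε : ℝ), 0 < ε → ∃ (T : Finset K) (δ : ℝ), 0 < δ ∧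
    ∀ (n : ℕ) (f : K → Equiv.Perm (Fin n)),
      (∀ g ∈ T, ∀ h ∈ T,
        ((Finset.univ.filter (fun i : Fin n => f (g * h) i ≠ (f g * f h) i)).card : ℝ)
          / (n : ℝ) < δ) →
      ∃ ρ : K →* Equiv.Perm (Fin n), ∀ g ∈ S,
        ((Finset.univ.filter (fun i : Fin n => f g i ≠ ρ g i)).card : ℝ) / (n : ℝ) < ε

theorem LocRet.pst {H : Type} [Group H] (hH : LocRet H) : PSt H := by
  classical
  intro S ε hε
  obtain ⟨r, hfin, hr⟩ := hH S
  obtain ⟨δ, hδ, h⟩ := fin_perm_stable r.range ε hε
  have : Fintype r.range := Fintype.ofFinite _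
  refine ⟨(Finset.univ : Finset r.range).image Subtype.val, δ, hδ, fun n f hf => ?_⟩
  obtain ⟨ρ, hρ⟩ := h n (fun x => f x.1) (fun g h => hf _ (Finset.mem_image_of_mem _
    (Finset.mem_univ _)) _ (Finset.mem_image_of_mem _ (Finset.mem_univ _)))
  refine ⟨ρ.comp r.rangeRestrict, fun g hg => ?_⟩
  have h1 := hρ (r.rangeRestrict g)
  have h2 : ((r.rangeRestrict g : r.range) : H) = g := (hr g hg).1
  simp only [h2] at h1
  exact h1

/-! ## The obstruction -/

theorem descent (f : ℕ → ℕ) (h : ∀ k, f (k + 1) < f k) : False := by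
  have : ∀ k, f k + k ≤ f 0 := by
    intro k
    induction k with
    | zero => simp
    | succ k ih => have := h k; omega
  have := this (f 0 + 1)
  omega

theorem exists_comm_fin {F : Type} [Group F] [Finite F] (a b : ℕ → F)
    (hab : ∀ i j, i ≠ j → Commute (a i) (b j)) : ∃ i, Commute (a i) (b i) := by
  by_contra hc
  push Not at hc
  refine descent (fun k => Set.ncard {x : F | ∀ j < k, Commute (a j) x}) fun k => ?_
  apply Set.ncard_lt_ncard _ (Set.toFinite _)
  constructor
  · intro x hx j hj
    exact hx j (by omega)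
  · intro h
    exact hc k (h (fun j hj => hab j k (by omega)) k (by omega))

/-- In every finite quotient the elements `t` and `t z_0` are conjugate. -/
theorem conj_fin {F : Type} [Group F] [Finite F] (ρ : GG →* F) :
    ∃ g : F, ρ tt * g = g * ρ (tt * SemidirectProduct.inl (zz 0)) := by
  obtain ⟨i, hi⟩ := exists_comm_fin (fun i => ρ (SemidirectProduct.inl (aa i)))
    (fun i => ρ (SemidirectProduct.inl (bb i)))
    (fun i j hij => ((ab_comm hij).map SemidirectProduct.inl).map ρ)
  refine ⟨ρ (SemidirectProduct.inl (aa i)), ?_⟩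
  have h1 : ρ (SemidirectProduct.inl (zz i)) = 1 := by
    have h2 := congrArg (fun x => ρ (SemidirectProduct.inl x)) (ab i)
    simp only [map_mul] at h2
    have h3 : ρ (SemidirectProduct.inl (aa i)) * ρ (SemidirectProduct.inl (bb i)) =
      ρ (SemidirectProduct.inl (bb i)) * ρ (SemidirectProduct.inl (aa i)) := hi
    rw [h3] at h2
    exact (mul_eq_right.1 h2.symm)
  have h2 := congrArg ρ (ta i)
  simp only [map_mul] at h2 ⊢
  rw [h1, mul_one] at h2
  exact h2

/-- the criterion: a quotient map to a locally finite group -/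
theorem not_pst_of {Γ B : Type} [Group Γ] [Group B] (θ : Γ →* B) (hB : LocFin B) (t z : Γ)
    (ht : θ t = 1) (hz : θ z ≠ 1)
    (hconj : ∀ (n : ℕ) (ρ : Γ →* Equiv.Perm (Fin n)), ∃ g, ρ t * g = g * ρ z)
    (T : Finset Γ) :
    ∃ (n : ℕ) (f : Γ → Equiv.Perm (Fin n)), 0 < n ∧ (∀ g ∈ T, ∀ h ∈ T, f (g * h) = f g * f h) ∧
      ∀ ρ : Γ →* Equiv.Perm (Fin n), (n : ℕ) ≤
        (Finset.univ.filter (fun i : Fin n => f t i ≠ ρ t i)).card +
        (Finset.univ.filter (fun i : Fin n => f z i ≠ ρ z i)).card := by
  classical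
  obtain ⟨F, hF, hmem⟩ := hB ((insert z T).image θ)
  have : Fintype F := Fintype.ofFinite _
  let e := Fintype.equivFin F
  let f : Γ → Equiv.Perm (Fin (Fintype.card F)) := fun g =>
    if h : θ g ∈ F then e.permCongr (Equiv.mulLeft (⟨θ g, h⟩ : F)) else 1
  have hf : ∀ g (h : θ g ∈ F), f g = e.permCongr (Equiv.mulLeft (⟨θ g, h⟩ : F)) :=
    fun g h => dif_pos h
  refine ⟨Fintype.card F, f, Fintype.card_pos, ?_, ?_⟩
  · intro g hg h hh
    have h1 : θ g ∈ F := hmem _ (Finset.mem_image_of_mem _ (Finset.mem_insert_of_mem hg))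
    have h2 : θ h ∈ F := hmem _ (Finset.mem_image_of_mem _ (Finset.mem_insert_of_mem hh))
    have h3 : θ (g * h) ∈ F := by rw [map_mul]; exact F.mul_mem h1 h2
    rw [hf g h1, hf h h2, hf (g * h) h3]
    ext i : 1
    simp only [Equiv.Perm.mul_apply, Equiv.permCongr_apply, Equiv.symm_apply_apply]
    congr 1
    show (⟨θ (g * h), h3⟩ : F) * e.symm i = (⟨θ g, h1⟩ : F) * ((⟨θ h, h2⟩ : F) * e.symm i)
    rw [← mul_assoc]
    congr 1
    exact Subtype.ext (map_mul _ _ _)
  · intro ρ
    obtain ⟨g, hg⟩ := hconj _ ρ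
    have hz1 : θ z ∈ F := hmem _ (Finset.mem_image_of_mem _ (Finset.mem_insert_self _ _))
    have ht1 : f t = 1 := by
      rw [hf t (by rw [ht]; exact F.one_mem)]
      ext i : 1
      simp only [Equiv.permCongr_apply, Equiv.Perm.coe_one, id_eq]
      have : (⟨θ t, by rw [ht]; exact F.one_mem⟩ : F) = 1 := Subtype.ext ht
      rw [this]
      simp
    have hz2 : ∀ i, f z i ≠ i := by
      intro i h
      rw [hf z hz1, Equiv.permCongr_apply] at h
      have h3 := congrArg e.symm h
      rw [Equiv.symm_apply_apply] at h3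
      have h4 : (⟨θ z, hz1⟩ : F) * e.symm i = e.symm i := h3
      exact hz (congrArg Subtype.val (mul_eq_right.1 h4))
    have h5 : (Finset.univ.filter (fun i : Fin (Fintype.card F) => ρ z i = i)).card =
        (Finset.univ.filter (fun i : Fin (Fintype.card F) => ρ t i = i)).card := by
      apply Finset.card_bij (fun i _ => g i)
      · intro i hi
        have hi := (Finset.mem_filter.1 hi).2
        refine Finset.mem_filter.2 ⟨Finset.mem_univ _, ?_⟩
        have := congrArg (fun σ : Equiv.Perm _ => σ i) hg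
        simp only [Equiv.Perm.mul_apply] at this
        rw [this, hi]
      · intro i _ j _ h; exact g.injective h
      · intro j hj
        have hj := (Finset.mem_filter.1 hj).2
        refine ⟨g⁻¹ j, Finset.mem_filter.2 ⟨Finset.mem_univ _, ?_⟩, by simp⟩
        apply g.injective
        have h9 : g (g⁻¹ j) = j := by simp
        have := congrArg (fun σ : Equiv.Perm _ => σ (g⁻¹ j)) hg
        simp only [Equiv.Perm.mul_apply] at this
        rw [← this, h9, hj]
    have h6 : (Finset.univ.filter (fun i : Fin (Fintype.card F) => ρ z i = i)).card ≤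
        (Finset.univ.filter (fun i : Fin (Fintype.card F) => f z i ≠ ρ z i)).card := by
      apply Finset.card_le_card
      intro i hi
      refine Finset.mem_filter.2 ⟨Finset.mem_univ _, ?_⟩
      rw [(Finset.mem_filter.1 hi).2]
      exact hz2 i
    have h7 : (Finset.univ.filter (fun i : Fin (Fintype.card F) => ρ t i = i)).card +
        (Finset.univ.filter (fun i : Fin (Fintype.card F) => f t i ≠ ρ t i)).card =
        Fintype.card F := by
      have h8 := Finset.card_filter_add_card_filter_not
        (s := (Finset.univ : Finset (Fin (Fintype.card F)))) (fun i => ρ t i = i)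
      rw [Finset.card_univ, Fintype.card_fin] at h8
      have h10 : (Finset.univ.filter (fun i : Fin (Fintype.card F) => f t i ≠ ρ t i)) =
          Finset.univ.filter (fun i : Fin (Fintype.card F) => ¬ ρ t i = i) := by
        ext i
        simp only [Finset.mem_filter, Finset.mem_univ, true_and, ht1, Equiv.Perm.coe_one, id_eq]
        exact ne_comm
      rw [h10]
      exact h8
    omega

end Pool.Agent.Helper784LF
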